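import Pool.Agent.Q236.CP.Sing2
import Pool.Agent.TH464.PO.Gen

set_option autoImplicit false

/-!
# Patterns with a fixed part: the conditional Poisson law
-/

namespace Pool.Agent.Q236.CP

open Finset Filter Pool.Agent.H373R2.T7 Pool.Agent.W123.RP Pool.Agent.W123.RU Pool.Agent.TH464.PO

open Classical in
/-- the number of the sifted integers `n + b`, `b ∈ B` -/
noncomputable def NB (Q : ℕ → ℕ → Prop) (y : ℕ) (B : Finset ℕ) (n : ℕ) : ℕ :=
  (B.filter (fun h => Sf Q y (n + h))).card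

open Classical in
/-- the integers `1 ≤ n ≤ Y` for which all `n + h`, `h ∈ H`, are sifted -/
noncomputable def Om (Q : ℕ → ℕ → Prop) (y : ℕ) (H : Finset ℕ) (Y : ℕ) : Finset ℕ :=
  (Icc 1 Y).filter (fun n => Sf (QH Q H) y n)

lemma perB_mono {Q : ℕ → ℕ → Prop} {c c' : ℕ} (h : PerB Q c) (hc : c ≤ c') : PerB Q c' :=
  ⟨h.per, fun p hp => (h.few p hp).trans hc⟩

open Classical in
/-- binomial moments as sums over sets of shifts -/
lemma moment_eq' (Q : ℕ → ℕ → Prop) (y k Y : ℕ) (H B : Finset ℕ) :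
    ∑ n ∈ Om Q y H Y, ((NB Q y B n).choose k : ℝ) =
      ∑ J ∈ powersetCard k B, (((Icc 1 Y).filter (fun n => Sf (QH Q (H ∪ J)) y n)).card : ℝ) := by
  have h1 : ∀ J ∈ powersetCard k B, (((Icc 1 Y).filter (fun n => Sf (QH Q (H ∪ J)) y n)).card : ℝ) =
      ∑ n ∈ Om Q y H Y, if (∀ h ∈ J, Sf Q y (n + h)) then (1 : ℝ) else 0 := by
    intro J _
    unfold Om
    rw [Finset.sum_ite, Finset.sum_const_zero, add_zero, Finset.sum_const, nsmul_eq_mul, mul_one,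
      Finset.filter_filter]
    congr 2
    apply Finset.filter_congr
    intro m _
    rw [sf_QH, sf_QH]
    constructor
    · intro h
      exact ⟨fun a ha => h a (mem_union_left _ ha), fun a ha => h a (mem_union_right _ ha)⟩
    · rintro ⟨h1, h2⟩ a ha
      rcases mem_union.1 ha with h | h
      · exact h1 a h
      · exact h2 a h
  rw [Finset.sum_congr rfl h1, Finset.sum_comm]
  apply Finset.sum_congr rfl
  intro m _
  rw [Finset.sum_ite, Finset.sum_const_zero, add_zero, Finset.sum_const, nsmul_eq_mul, mul_one]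
  unfold NB
  rw [← Finset.card_powersetCard]
  congr 2
  ext J
  rw [mem_filter, mem_powersetCard, mem_powersetCard]
  constructor
  · rintro ⟨a1, a2⟩
    exact ⟨⟨fun h hh => (mem_filter.1 (a1 hh)).1, a2⟩, fun h hh => (mem_filter.1 (a1 hh)).2⟩
  · rintro ⟨⟨a1, a2⟩, a3⟩
    exact ⟨fun h hh => mem_filter.2 ⟨a1 hh, a3 h hh⟩, a2⟩

/-- the assumptions on the fixed part `H` and on the set `B` -/
structure Fix (Q : ℕ → ℕ → Prop) (k0 T : ℕ) (κ : ℝ) (M1 : ℕ → ℝ) (H B : Finset ℕ) (β : ℝ) : Prop where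
  card : H.card ≤ k0
  le : ∀ a ∈ H, a ≤ T
  sub : B ⊆ Icc 1 T
  dis : Disjoint H B
  low : κ * T ≤ β
  reg : ∀ w, RegB Q w B β (M1 w)

open Classical in
/-- **Binomial moments.** -/
theorem moment' (c k k0 : ℕ) (hc : 1 ≤ c) (M1 : ℕ → ℝ) (hM1 : ∀ w, 0 ≤ M1 w) (κ η : ℝ) (hκ : 0 < κ)
    (hκ1 : κ ≤ 1) (hη : 0 < η) (hη1 : η ≤ 1) :
    ∃ (K0 y0 T0 : ℕ) (η' : ℝ), 0 < η' ∧ ∀ Y y T : ℕ, y0 ≤ y → y ^ K0 ≤ Y → T0 ≤ T →
      ∀ Q : ℕ → ℕ → Prop, PerB Q c → (∀ p : ℕ, p.Prime → nuB Q p < p) →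
      (∀ t ∈ Icc 1 T, ((((pz y).filter (fun p : ℕ => T < p ∧ CoG Q p t)).card : ℕ) : ℝ) ≤ η' * T) →
      ∀ (H B : Finset ℕ) (β : ℝ), Fix Q k0 T κ M1 H B β →
      |∑ n ∈ Om Q y H Y, ((NB Q y B n).choose (k + 1) : ℝ) -
        Y * (Vq (QH Q H) y * ((β * Vq Q y) ^ (k + 1) / (k + 1).factorial))| ≤
        η * Y * (Vq (QH Q H) y * ((β * Vq Q y) ^ (k + 1) / (k + 1).factorial)) +
          T ^ (k + 1) * √(Y : ℝ) := by
  obtain ⟨K0, x0, hK0, hfund⟩ := sys_fund ((k0 + (k + 1)) * c) (Nat.mul_pos (by omega) hc) (η / 4)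
    (by positivity)
  obtain ⟨w, η', T0, hη', hsing⟩ := sing_avg' c k k0 M1 hM1 κ (η / 4) hκ hκ1 (by positivity) (by linarith)
  refine ⟨K0, max x0 w, T0, η', hη', ?_⟩
  intro Y y T hy hyY hT Q hQ hadm hlarge H B β hF
  obtain ⟨s1, s2⟩ := hsing T hT Q hQ hadm y ((le_max_right _ _).trans hy) hlarge H B β hF.card hF.le
    hF.sub hF.dis hF.low (hF.reg w)
  rw [moment_eq']
  obtain ⟨S, hS⟩ : ∃ S, S = ∑ J ∈ powersetCard (k + 1) B, Vq (QH Q (H ∪ J)) y := ⟨_, rfl⟩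
  obtain ⟨Z, hZ⟩ : ∃ Z : ℝ, Z = Vq (QH Q H) y * ((β * Vq Q y) ^ (k + 1) / (k + 1).factorial) := ⟨_, rfl⟩
  rw [← hS, ← hZ] at s1 s2
  rw [← hZ]
  have hβ0 : 0 ≤ β := le_trans (by positivity) hF.low
  have hV0 := Vq_nonneg Q y
  have hVH0 := Vq_nonneg (QH Q H) y
  have hZ0 : 0 ≤ Z := by rw [hZ]; positivity
  have hY0 : (0 : ℝ) ≤ Y := Nat.cast_nonneg Y
  have h1 : |∑ J ∈ powersetCard (k + 1) B,
      (((Icc 1 Y).filter (fun n => Sf (QH Q (H ∪ J)) y n)).card : ℝ) - Y * S| ≤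
      η / 4 * (Y * S) + T ^ (k + 1) * √(Y : ℝ) := by
    have e : Y * S = ∑ J ∈ powersetCard (k + 1) B, (Y : ℝ) * Vq (QH Q (H ∪ J)) y := by
      rw [hS, Finset.mul_sum]
    rw [e, ← Finset.sum_sub_distrib]
    refine (Finset.abs_sum_le_sum_abs _ _).trans ?_
    have h2 : ∀ J ∈ powersetCard (k + 1) B,
        |(((Icc 1 Y).filter (fun n => Sf (QH Q (H ∪ J)) y n)).card : ℝ) - Y * Vq (QH Q (H ∪ J)) y| ≤
        η / 4 * (Y * Vq (QH Q (H ∪ J)) y) + √(Y : ℝ) := by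
      intro J hJ
      rw [mem_powersetCard] at hJ
      have hper : PerB (QH Q (H ∪ J)) ((k0 + (k + 1)) * c) := by
        apply perB_mono (perB_QH Q c hQ (H ∪ J))
        apply Nat.mul_le_mul_right
        refine (card_union_le _ _).trans ?_
        rw [hJ.2]
        have := hF.card
        omega
      have h3 := hfund Y y ((le_max_left _ _).trans hy) hyY (QH Q (H ∪ J)) hper Y
      have e1 : ∏ p ∈ pz y, (1 - (nuB (QH Q (H ∪ J)) p : ℝ) / p) = Vq (QH Q (H ∪ J)) y := rfl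
      rw [e1] at h3
      unfold Sf
      convert h3
    refine (Finset.sum_le_sum h2).trans ?_
    rw [Finset.sum_add_distrib, ← Finset.mul_sum, Finset.sum_const, nsmul_eq_mul]
    have h3 : ((powersetCard (k + 1) B).card : ℝ) ≤ (T : ℝ) ^ (k + 1) := by
      have h4 : (powersetCard (k + 1) B).card ≤ T ^ (k + 1) := by
        refine (card_le_card (powersetCard_mono hF.sub)).trans ?_
        rw [card_powersetCard, Nat.card_Icc, Nat.add_sub_cancel]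
        exact Nat.choose_le_pow T (k + 1)
      exact_mod_cast h4
    have h4 := mul_le_mul_of_nonneg_right h3 (Real.sqrt_nonneg (Y : ℝ))
    linarith
  have h5 : |Y * S - Y * Z| ≤ η / 4 * (Y * Z) := by
    rw [← mul_sub, abs_mul, abs_of_nonneg hY0]
    have : |S - Z| ≤ η / 4 * Z := by
      rw [abs_le]
      constructor <;> linarith
    calc (Y : ℝ) * |S - Z| ≤ Y * (η / 4 * Z) := mul_le_mul_of_nonneg_left this hY0
      _ = _ := by ring
  have h6 : Y * S ≤ 2 * (Y * Z) := by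
    have h7 := (abs_le.1 h5).2
    have h8 : 0 ≤ Y * Z := mul_nonneg hY0 hZ0
    nlinarith
  have h8 : 0 ≤ Y * Z := mul_nonneg hY0 hZ0
  have h9 := abs_sub_le (∑ J ∈ powersetCard (k + 1) B,
      (((Icc 1 Y).filter (fun n => Sf (QH Q (H ∪ J)) y n)).card : ℝ)) (Y * S) (Y * Z)
  have h10 : η / 4 * (Y * S) ≤ η / 4 * (2 * (Y * Z)) :=
    mul_le_mul_of_nonneg_left h6 (by positivity)
  have h11 : 0 ≤ η * (Y * Z) := by positivity
  calc _ ≤ _ := h9
    _ ≤ η / 4 * (2 * (Y * Z)) + T ^ (k + 1) * √(Y : ℝ) + η / 4 * (Y * Z) := by linarith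
    _ ≤ _ := by linarith

/-- powers of logarithms are small -/
lemma log_small (B : ℕ) (δ : ℝ) (hδ : 0 < δ) : ∃ y1 : ℕ, 2 ≤ y1 ∧ ∀ y : ℕ, y1 ≤ y →
    Real.log (y : ℝ) ^ B ≤ δ * y := by
  have h := ((isLittleO_log_rpow_rpow_atTop (B : ℝ) (by norm_num : (0 : ℝ) < 1)).comp_tendsto
    tendsto_natCast_atTop_atTop).bound hδ
  obtain ⟨T2, hT2⟩ := Filter.eventually_atTop.1 h
  refine ⟨max T2 2, le_max_right _ _, fun T hT => ?_⟩
  have h2 := hT2 T ((le_max_left _ _).trans hT)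
  have hT1 : (1 : ℝ) ≤ T := by
    have : 2 ≤ T := (le_max_right _ _).trans hT
    exact_mod_cast (by omega : 1 ≤ T)
  have hlog : 0 ≤ Real.log (T : ℝ) := Real.log_nonneg hT1
  simp only [Function.comp_def] at h2
  rw [Real.norm_of_nonneg (by positivity), Real.norm_of_nonneg (by positivity), Real.rpow_natCast,
    Real.rpow_one] at h2
  exact h2

open Classical in
/-- **The conditional Poisson law**, uniform in the system `Q`, the fixed part `H` and the set `B`. -/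
theorem law' (c k0 : ℕ) (hc : 1 ≤ c) (M1 : ℕ → ℝ) (hM1 : ∀ w, 0 ≤ M1 w) (κ x0 ε : ℝ) (hκ : 0 < κ)
    (hκ1 : κ ≤ 1) (hx0 : 0 ≤ x0) (hε : 0 < ε) :
    ∃ (K0 y0 T0 R0 : ℕ) (η' : ℝ), 0 < η' ∧ ∀ Y y T : ℕ, y0 ≤ y → y ^ K0 ≤ Y → T0 ≤ T → T ^ R0 ≤ Y →
      ∀ Q : ℕ → ℕ → Prop, PerB Q c → (∀ p : ℕ, p.Prime → nuB Q p < p) →
      (∀ t ∈ Icc 1 T, ((((pz y).filter (fun p : ℕ => T < p ∧ CoG Q p t)).card : ℕ) : ℝ) ≤ η' * T) →
      ∀ (H B : Finset ℕ) (β : ℝ), Fix Q k0 T κ M1 H B β → (∀ p : ℕ, p.Prime → nuB (QH Q H) p < p) →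
      β * Vq Q y ≤ x0 →
      |((Om Q y H Y).card : ℝ) - Y * Vq (QH Q H) y| ≤ ε * (Y * Vq (QH Q H) y) ∧
      ∀ A : Finset ℕ, |(((Om Q y H Y).filter (fun n => NB Q y B n ∈ A)).card : ℝ) -
        (Om Q y H Y).card * ∑ j ∈ A, Real.exp (-(β * Vq Q y)) * (β * Vq Q y) ^ j / j.factorial| ≤
          ε * (Om Q y H Y).card := by
  obtain ⟨R, η, hη, htv⟩ := law_tv x0 ε hx0 hε
  obtain ⟨X1, hX1⟩ : ∃ X1 : ℝ, X1 = (1 + x0) ^ (R + 1) := ⟨_, rfl⟩
  have hX1pos : 1 ≤ X1 := by rw [hX1]; exact one_le_pow₀ (by linarith)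
  obtain ⟨η1, hη1⟩ : ∃ η1 : ℝ, η1 = min (1 / 2) (min (ε / 2) (η / (8 * X1))) := ⟨_, rfl⟩
  have hη10 : 0 < η1 := by rw [hη1]; positivity
  have hη11 : η1 ≤ 1 / 2 := by rw [hη1]; exact min_le_left _ _
  have hη13 : η1 ≤ ε / 2 := by rw [hη1]; exact (min_le_right _ _).trans (min_le_left _ _)
  have hη12 : η1 * X1 ≤ η / 8 := by
    have : η1 ≤ η / (8 * X1) := by rw [hη1]; exact (min_le_right _ _).trans (min_le_right _ _)
    rw [le_div_iff₀ (by positivity)] at this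
    linarith
  choose K0 y0 T0 η' hη' hmom using fun k => moment' c k k0 hc M1 hM1 κ η1 hκ hκ1 hη10 (by linarith)
  obtain ⟨KF, xF, hKF, hfund⟩ := sys_fund (k0 * c + 1) (by omega) (η1 / 2) (by positivity)
  obtain ⟨c1, B0, w1, hc1, hw12, hW⟩ := W_low (k0 * c)
  obtain ⟨y1, hy12, hy1⟩ := log_small B0 (min (η1 / 2) (η / 8) * c1) (by positivity)
  obtain ⟨η0, hη00, hη0⟩ := exists_lower η' hη' R
  refine ⟨(∑ k ∈ range R, K0 k) + KF + 4, (∑ k ∈ range R, y0 k) + y1 + xF + w1,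
    (∑ k ∈ range R, T0 k) + 1, 4 * (R + 1), η0, hη00, ?_⟩
  intro Y y T hy hyY hT hTR Q hQ hadm hlarge H B β hF hadmH hx
  obtain ⟨x, hxdef⟩ : ∃ x, x = β * Vq Q y := ⟨_, rfl⟩
  rw [← hxdef] at hx ⊢
  have hT0r : (0 : ℝ) ≤ T := Nat.cast_nonneg T
  have hβ0 : 0 ≤ β := le_trans (by positivity) hF.low
  have hx00 : 0 ≤ x := by
    rw [hxdef]
    exact mul_nonneg hβ0 (Vq_nonneg Q y)
  have hy1' : 1 ≤ y := by omega
  have hT1 : 1 ≤ T := by omega
  have hyY' : y ^ 4 ≤ Y := (Nat.pow_le_pow_right hy1' (by omega)).trans hyY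
  have hyF : y ^ KF ≤ Y := (Nat.pow_le_pow_right hy1' (by omega)).trans hyY
  have hyr : (1 : ℝ) ≤ y := by exact_mod_cast hy1'
  have hYr : (1 : ℝ) ≤ Y := by
    have : 1 ≤ Y := (Nat.one_le_pow _ _ hy1').trans hyY'
    exact_mod_cast this
  have hYpos : (0 : ℝ) < Y := by linarith
  -- the density of the fixed part
  obtain ⟨VH, hVH⟩ : ∃ VH, VH = Vq (QH Q H) y := ⟨_, rfl⟩
  have hperH : PerB (QH Q H) (k0 * c) :=
    perB_mono (perB_QH Q c hQ H) (Nat.mul_le_mul_right _ hF.card)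
  have hVlow : c1 / Real.log y ^ B0 ≤ VH := by
    rw [hVH]
    exact hW y (by omega) (QH Q H) hperH hadmH
  have hlogy : 0 < Real.log y := Real.log_pos (by
    have : (2 : ℝ) ≤ y := by exact_mod_cast (by omega : 2 ≤ y)
    linarith)
  have hVHpos : 0 < VH := lt_of_lt_of_le (by positivity) hVlow
  rw [← hVH]
  -- sizes
  have hs4y : (y : ℝ) ≤ √(√(Y : ℝ)) := by
    apply Real.le_sqrt_of_sq_le
    apply Real.le_sqrt_of_sq_le
    have : ((y : ℝ) ^ 2) ^ 2 = ((y ^ 4 : ℕ) : ℝ) := by push_cast; ring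
    rw [this]
    exact_mod_cast hyY'
  have e1 : √(√(Y : ℝ)) * √(√(Y : ℝ)) = √(Y : ℝ) := Real.mul_self_sqrt (Real.sqrt_nonneg _)
  have e2 : √(Y : ℝ) * √(Y : ℝ) = Y := Real.mul_self_sqrt hYpos.le
  have hss0 : 0 < √(√(Y : ℝ)) := by positivity
  have hs0 : 0 < √(Y : ℝ) := by positivity
  have hkey : ∀ δ : ℝ, 0 < δ → min (η1 / 2) (η / 8) ≤ δ → √(√(Y : ℝ)) * √(Y : ℝ) ≤ δ * (Y * VH) := by
    intro δ hδ hmin
    have h1 := hy1 y (by omega)
    have h2 : Real.log (y : ℝ) ^ B0 ≤ δ * c1 * √(√(Y : ℝ)) := by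
      refine h1.trans ?_
      gcongr
    have h3 : 1 ≤ δ * VH * √(√(Y : ℝ)) := by
      have h4 : c1 ≤ VH * Real.log y ^ B0 := by
        rw [div_le_iff₀ (by positivity)] at hVlow
        exact hVlow
      have h5 : c1 * 1 ≤ c1 * (δ * VH * √(√(Y : ℝ))) := by
        calc c1 * 1 ≤ VH * Real.log y ^ B0 := by linarith
          _ ≤ VH * (δ * c1 * √(√(Y : ℝ))) := mul_le_mul_of_nonneg_left h2 hVHpos.le
          _ = _ := by ring
      exact le_of_mul_le_mul_left h5 hc1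
    calc √(√(Y : ℝ)) * √(Y : ℝ) = √(√(Y : ℝ)) * √(Y : ℝ) * 1 := (mul_one _).symm
      _ ≤ √(√(Y : ℝ)) * √(Y : ℝ) * (δ * VH * √(√(Y : ℝ))) := by gcongr
      _ = δ * ((√(√(Y : ℝ)) * √(√(Y : ℝ))) * √(Y : ℝ)) * VH := by ring
      _ = _ := by rw [e1, e2]; ring
  have hT4 : (T : ℝ) ^ (R + 1) ≤ √(√(Y : ℝ)) := by
    apply Real.le_sqrt_of_sq_le
    apply Real.le_sqrt_of_sq_le
    calc (((T : ℝ) ^ (R + 1)) ^ 2) ^ 2 = (T : ℝ) ^ (4 * (R + 1)) := by
          rw [← pow_mul, ← pow_mul]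
          congr 1
          ring
      _ ≤ Y := by exact_mod_cast hTR
  obtain ⟨e, he⟩ : ∃ e : ℝ, e = Y * VH := ⟨_, rfl⟩
  have he0 : 0 < e := by rw [he]; positivity
  rw [← he]
  have hTY : (T : ℝ) ^ (R + 1) * √(Y : ℝ) ≤ η / 8 * e := by
    calc (T : ℝ) ^ (R + 1) * √(Y : ℝ) ≤ √(√(Y : ℝ)) * √(Y : ℝ) := by gcongr
      _ ≤ _ := by rw [he]; exact hkey (η / 8) (by positivity) (min_le_right _ _)
  have hsY : √(Y : ℝ) ≤ η1 / 2 * e := by
    calc √(Y : ℝ) = 1 * √(Y : ℝ) := (one_mul _).symm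
      _ ≤ √(√(Y : ℝ)) * √(Y : ℝ) := by
        apply mul_le_mul_of_nonneg_right _ hs0.le
        linarith
      _ ≤ _ := by rw [he]; exact hkey (η1 / 2) (by positivity) (min_le_left _ _)
  -- the number of elements
  have hcardOm : |((Om Q y H Y).card : ℝ) - e| ≤ η1 * e := by
    have h3 := hfund Y y (by omega) hyF (QH Q H) (perB_mono hperH (by omega)) Y
    have e3 : ∏ p ∈ pz y, (1 - (nuB (QH Q H) p : ℝ) / p) = VH := by rw [hVH]; rfl
    rw [e3, ← he] at h3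
    have h4 : ((Om Q y H Y).card : ℝ) =
        ((((Icc 1 Y).filter (fun n : ℕ => ∀ p ∈ pz y, ¬ QH Q H p n)).card : ℕ) : ℝ) := by
      unfold Om Sf
      congr
    rw [h4]
    linarith
  obtain ⟨hO1, hO2⟩ := abs_le.1 hcardOm
  have hOe : e ≤ 2 * (Om Q y H Y).card := by nlinarith
  refine ⟨hcardOm.trans (mul_le_mul_of_nonneg_right (by linarith) he0.le), ?_⟩
  intro A
  have hmain := htv (Om Q y H Y) (NB Q y B) x hx00 hx (by
    intro k hk
    rcases k with _ | k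
    · simp
      positivity
    · have hkR : k ∈ range R := mem_range.2 (by omega)
      have hKk : K0 k ≤ ∑ k ∈ range R, K0 k := Finset.single_le_sum (fun _ _ => Nat.zero_le _) hkR
      have hyk : y0 k ≤ ∑ k ∈ range R, y0 k := Finset.single_le_sum (fun _ _ => Nat.zero_le _) hkR
      have hTk : T0 k ≤ ∑ k ∈ range R, T0 k := Finset.single_le_sum (fun _ _ => Nat.zero_le _) hkR
      have h1 := hmom k Y y T (by omega)
        ((Nat.pow_le_pow_right hy1' (by omega)).trans hyY) (by omega) Q hQ hadm (fun t ht =>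
          (hlarge t ht).trans (mul_le_mul_of_nonneg_right (hη0 k (by omega)) (Nat.cast_nonneg _))) H B β hF
      obtain ⟨mk, hmk⟩ : ∃ mk : ℝ, mk = x ^ (k + 1) / ((k + 1).factorial : ℝ) := ⟨_, rfl⟩
      rw [← hxdef, ← hVH, ← hmk] at h1
      rw [← hmk]
      have hmk0 : 0 ≤ mk := by rw [hmk]; positivity
      have h2 : mk ≤ X1 := by
        have hf1 : (1 : ℝ) ≤ (k + 1).factorial := by exact_mod_cast Nat.factorial_pos (k + 1)
        calc mk ≤ x ^ (k + 1) := by rw [hmk]; exact div_le_self (by positivity) hf1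
          _ ≤ (1 + x0) ^ (k + 1) := pow_le_pow_left₀ hx00 (by linarith) _
          _ ≤ (1 + x0) ^ (R + 1) := pow_le_pow_right₀ (by linarith) (by omega)
          _ = X1 := hX1.symm
      have h3 : (T : ℝ) ^ (k + 1) * √(Y : ℝ) ≤ η / 8 * e := by
        refine le_trans ?_ hTY
        apply mul_le_mul_of_nonneg_right _ (Real.sqrt_nonneg _)
        apply pow_le_pow_right₀ (by exact_mod_cast hT1) (by omega)
      have e4 : (Y : ℝ) * (VH * mk) = e * mk := by rw [he]; ring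
      have e5 : η1 * Y * (VH * mk) = η1 * mk * e := by rw [he]; ring
      rw [e4, e5] at h1
      have h5 : η1 * mk ≤ η / 8 := (mul_le_mul_of_nonneg_left h2 hη10.le).trans hη12
      have h6 : η1 * mk * e ≤ η / 8 * e := mul_le_mul_of_nonneg_right h5 he0.le
      have h7 : |e * mk - (Om Q y H Y).card * mk| ≤ η / 8 * e := by
        rw [← sub_mul, abs_mul, abs_of_nonneg hmk0, abs_sub_comm]
        calc |((Om Q y H Y).card : ℝ) - e| * mk ≤ η1 * e * mk := mul_le_mul_of_nonneg_right hcardOm hmk0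
          _ = η1 * mk * e := by ring
          _ ≤ _ := h6
      have h8 := abs_sub_le (∑ n ∈ Om Q y H Y, ((NB Q y B n).choose (k + 1) : ℝ)) (e * mk)
        ((Om Q y H Y).card * mk)
      have h9 : η * e ≤ η * (2 * (Om Q y H Y).card) := mul_le_mul_of_nonneg_left hOe hη.le
      have h10 : 0 ≤ η * ((Om Q y H Y).card : ℝ) := by positivity
      linarith) A
  exact hmain

end Pool.Agent.Q236.CP
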