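import Pool.Agent.Q236.CP.Win
import Pool.Agent.TH464.PO.PolyExact
import Pool.Agent.TH464.PO.Ext

set_option autoImplicit false

/-!
# The conditional Poisson law for systems of polynomials
-/

namespace Pool.Agent.Q236.CP

open Polynomial Finset Filter
open Pool.Agent.W123.RP Pool.Agent.H373R2.T7 Pool.Agent.W123.RU Pool.Agent.W123.RU.Poly
open Pool.Agent.TH464.PW Pool.Agent.TH464.PO

variable {ι : Type} [Fintype ι]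

open Classical in
/-- **The conditional Poisson law**, for systems of polynomials, in all intervals `(Z, Z + Y]`. -/
theorem cp_poly [Nonempty ι] (f : ι → ℤ[X]) (hf : Sys f) (hT : NoTr f) (θ : ℝ) (hθ : 0 < θ)
    (k0 : ℕ) (x0 ε : ℝ) (hx0 : 0 ≤ x0) (hε : 0 < ε) :
    ∃ r0 : ℕ, 2 ≤ r0 ∧ ∀ r : ℕ, r0 ≤ r → ∀ᶠ X : ℕ in atTop, ∀ Z Y : ℕ, (X : ℝ) ^ θ ≤ Y →
      ∀ (H : Finset ℕ) (D : ℕ), H.card ≤ k0 → (∀ a ∈ H, a ≤ D) →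
        (∀ p : ℕ, p.Prime → nuB (QH (Q f) H) p < p) →
        D * Vq (Q f) ⌊(X : ℝ) ^ (1 / (r : ℝ))⌋₊ ≤ x0 →
        |((OmZ (Q f) ⌊(X : ℝ) ^ (1 / (r : ℝ))⌋₊ H Z Y).card : ℝ) -
            Y * Vq (QH (Q f) H) ⌊(X : ℝ) ^ (1 / (r : ℝ))⌋₊| ≤
          ε * (Y * Vq (QH (Q f) H) ⌊(X : ℝ) ^ (1 / (r : ℝ))⌋₊) ∧
        ∀ A : Finset ℕ,
          |(((OmZ (Q f) ⌊(X : ℝ) ^ (1 / (r : ℝ))⌋₊ H Z Y).filter
              (fun n => NB (Q f) ⌊(X : ℝ) ^ (1 / (r : ℝ))⌋₊ (Icc 1 D \ H) n ∈ A)).card : ℝ) -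
            Y * Vq (QH (Q f) H) ⌊(X : ℝ) ^ (1 / (r : ℝ))⌋₊ *
              ∑ j ∈ A, Real.exp (-(D * Vq (Q f) ⌊(X : ℝ) ^ (1 / (r : ℝ))⌋₊)) *
                (D * Vq (Q f) ⌊(X : ℝ) ^ (1 / (r : ℝ))⌋₊) ^ j / j.factorial| ≤
            ε * (Y * Vq (QH (Q f) H) ⌊(X : ℝ) ^ (1 / (r : ℝ))⌋₊) := by
  obtain ⟨c, hc, hQ⟩ := exists_c f hf
  obtain ⟨K0, y0, T0, R0, η', κ, hη', hκ, hκ2, hlaw⟩ := cp_law c k0 hc x0 ε hx0 hε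
  obtain ⟨r0, h0⟩ := poly_sizes f hf hT θ hθ K0 y0 T0 R0 η' κ (max x0 1) hη' hκ (by positivity)
  refine ⟨max r0 2, le_max_right _ _, ?_⟩
  intro r hr
  have hr2 : 2 ≤ r := (le_max_right _ _).trans hr
  filter_upwards [h0 r ((le_max_left _ _).trans hr), V_small f hf r hr2 κ hκ] with X hX hVκ
  intro Z Y hXY H D hHk hHD hadmH hDx
  obtain ⟨y, hy⟩ : ∃ y, y = ⌊(X : ℝ) ^ (1 / (r : ℝ))⌋₊ := ⟨_, rfl⟩
  obtain ⟨a1, a2, a3⟩ := hX Y hXY y hy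
  rw [← hy] at hVκ hDx ⊢
  exact hlaw (Q f) Z Y y hQ (fun p hp => Poly.adm f hf p hp) a1 a2 hVκ a3 H D hHk hHD hadmH hDx

end Pool.Agent.Q236.CP
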