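import Pool.Agent.Q236.CP.Small

set_option autoImplicit false

/-!
# Patterns with a fixed part: the tail of the singular series
-/

namespace Pool.Agent.Q236.CP

open Finset Pool.Agent.H373R2.T7 Pool.Agent.W123.RP Pool.Agent.W123.RU Pool.Agent.TH464.PO

/-- the distance of two natural numbers -/
def ds (a b : ℕ) : ℕ := (a - b) + (b - a)

/-- a collision between two elements of `J` or of an element of `H` and an element of `J` -/
def Cl2 (Q : ℕ → ℕ → Prop) (H J : Finset ℕ) (p : ℕ) : Prop :=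
  Cl Q J p ∨ ∃ a ∈ H, ∃ b ∈ J, CoG Q p (ds a b)

open Classical in
lemma nuB_union (Q : ℕ → ℕ → Prop) (c : ℕ) (hQ : PerB Q c) (H J : Finset ℕ) (p : ℕ)
    (hd : Disjoint H J) (h : ¬ Cl2 Q H J p) :
    nuB (QH Q (H ∪ J)) p = nuB (QH Q H) p + J.card * nuB Q p := by
  rw [← nuB_eq_of_not_Cl Q c hQ J p (fun hc => h (Or.inl hc))]
  have h1 : (range p).filter (fun r => QH Q (H ∪ J) p r) =
      (range p).filter (fun r => QH Q H p r) ∪ (range p).filter (fun r => QH Q J p r) := by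
    ext r
    rw [mem_union, mem_filter, mem_filter, mem_filter]
    unfold QH
    constructor
    · rintro ⟨hr, a, ha, hq⟩
      rcases mem_union.1 ha with h2 | h2
      · exact Or.inl ⟨hr, a, h2, hq⟩
      · exact Or.inr ⟨hr, a, h2, hq⟩
    · rintro (⟨hr, a, ha, hq⟩ | ⟨hr, a, ha, hq⟩)
      · exact ⟨hr, a, mem_union_left _ ha, hq⟩
      · exact ⟨hr, a, mem_union_right _ ha, hq⟩
  have h2 : Disjoint ((range p).filter (fun r => QH Q H p r)) ((range p).filter (fun r => QH Q J p r)) := by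
    rw [Finset.disjoint_left]
    intro r hr hr'
    rw [mem_filter] at hr hr'
    obtain ⟨_, a, ha, hqa⟩ := hr
    obtain ⟨_, b, hb, hqb⟩ := hr'
    apply h
    right
    refine ⟨a, ha, b, hb, ?_⟩
    have hne : a ≠ b := fun hab => by
      rw [hab] at ha
      exact Finset.disjoint_left.1 hd ha hb
    unfold ds
    rcases Nat.lt_or_gt_of_ne hne with h2 | h2
    · refine ⟨r + a, hqa, ?_⟩
      have : r + a + ((a - b) + (b - a)) = r + b := by omega
      rw [this]
      exact hqb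
    · refine ⟨r + b, hqb, ?_⟩
      have : r + b + ((a - b) + (b - a)) = r + a := by omega
      rw [this]
      exact hqa
  unfold nuB
  have h3 := Finset.card_union_of_disjoint h2
  rw [← h1] at h3
  convert h3

open Classical in
lemma nuB_union_ge (Q : ℕ → ℕ → Prop) (H J : Finset ℕ) (p : ℕ) :
    nuB (QH Q H) p ≤ nuB (QH Q (H ∪ J)) p := by
  unfold nuB
  apply card_le_card
  intro r hr
  rw [mem_filter] at hr ⊢
  obtain ⟨h1, a, ha, hq⟩ := hr
  exact ⟨h1, a, mem_union_left _ ha, hq⟩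

open Classical in
lemma nuB_union_le (Q : ℕ → ℕ → Prop) (c : ℕ) (hQ : PerB Q c) (H J : Finset ℕ) (p : ℕ) :
    nuB (QH Q (H ∪ J)) p ≤ nuB (QH Q H) p + J.card * nuB Q p := by
  have h0 := nuB_QH_le Q c hQ J p
  have h1 : (range p).filter (fun r => QH Q (H ∪ J) p r) ⊆
      (range p).filter (fun r => QH Q H p r) ∪ (range p).filter (fun r => QH Q J p r) := by
    intro r hr
    rw [mem_filter] at hr
    rw [mem_union, mem_filter, mem_filter]
    obtain ⟨h1, a, ha, hq⟩ := hr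
    rcases mem_union.1 ha with h2 | h2
    · exact Or.inl ⟨h1, a, h2, hq⟩
    · exact Or.inr ⟨h1, a, h2, hq⟩
  have h2 := (card_le_card h1).trans (card_union_le _ _)
  unfold nuB at h0 ⊢
  refine le_trans ?_ (Nat.add_le_add_left h0 _)
  convert h2

open Classical in
/-- upper bound for one factor -/
lemma factor_up' (Q : ℕ → ℕ → Prop) (c : ℕ) (hQ : PerB Q c) (H J : Finset ℕ) (p : ℕ) (hp : p.Prime)
    (hd : Disjoint H J) (hbig : 2 * (J.card * c) ≤ p) : 1 - (nuB (QH Q (H ∪ J)) p : ℝ) / p ≤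
      (1 - (nuB (QH Q H) p : ℝ) / p) * (1 - (nuB Q p : ℝ) / p) ^ J.card *
        (if Cl2 Q H J p then 1 + ((2 * (J.card * c) : ℕ) : ℝ) / p else 1) := by
  have hp0 : (0 : ℝ) < p := by exact_mod_cast hp.pos
  have hfew := hQ.few p hp
  obtain ⟨k, hk⟩ : ∃ k, k = J.card := ⟨_, rfl⟩
  rw [← hk] at hbig ⊢
  obtain ⟨u, hu⟩ : ∃ u : ℝ, u = (nuB Q p : ℝ) / p := ⟨_, rfl⟩
  obtain ⟨a, ha⟩ : ∃ a : ℝ, a = (nuB (QH Q H) p : ℝ) / p := ⟨_, rfl⟩
  rw [← hu, ← ha]
  have hu0 : 0 ≤ u := by rw [hu]; positivity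
  have ha0 : 0 ≤ a := by rw [ha]; positivity
  have ha1 : 0 ≤ 1 - a := by rw [ha]; exact one_sub_nonneg _ p hp
  have hu1 : u ≤ 1 := by
    rw [hu, div_le_one hp0]
    exact_mod_cast nuB_le Q p
  have hc : (nuB Q p : ℝ) ≤ c := by exact_mod_cast hfew
  have hk0 : (0 : ℝ) ≤ k := Nat.cast_nonneg k
  have hku : (k : ℝ) * u ≤ ((k * c : ℕ) : ℝ) / p := by
    rw [hu, ← mul_div_assoc]
    apply div_le_div_of_nonneg_right _ hp0.le
    push_cast
    gcongr
  have hkc : ((k * c : ℕ) : ℝ) / p ≤ 1 / 2 := by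
    rw [div_le_div_iff₀ hp0 (by norm_num)]
    have : ((2 * (k * c) : ℕ) : ℝ) ≤ p := by exact_mod_cast hbig
    push_cast at this ⊢
    linarith
  have hber := one_add_mul_le_pow (a := -u) (by linarith) k
  have hber' : 1 - k * u ≤ (1 - u) ^ k := by
    calc 1 - k * u = 1 + k * -u := by ring
      _ ≤ (1 + -u) ^ k := hber
      _ = (1 - u) ^ k := by ring
  by_cases h : Cl2 Q H J p
  · rw [if_pos h]
    have h1 : 1 - (nuB (QH Q (H ∪ J)) p : ℝ) / p ≤ 1 - a := by
      have h0 : a ≤ (nuB (QH Q (H ∪ J)) p : ℝ) / p := by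
        rw [ha]
        apply div_le_div_of_nonneg_right _ hp0.le
        exact_mod_cast nuB_union_ge Q H J p
      linarith
    refine h1.trans ?_
    obtain ⟨t, ht⟩ : ∃ t : ℝ, t = k * u := ⟨_, rfl⟩
    have ht0 : 0 ≤ t := by rw [ht]; positivity
    have ht1 : t ≤ 1 / 2 := by rw [ht]; linarith
    have h2 : 1 + 2 * t ≤ 1 + ((2 * (k * c) : ℕ) : ℝ) / p := by
      have : ((2 * (k * c) : ℕ) : ℝ) / p = 2 * (((k * c : ℕ) : ℝ) / p) := by
        push_cast
        ring
      rw [this, ht]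
      linarith
    have h3 : (1 : ℝ) ≤ (1 - u) ^ k * (1 + ((2 * (k * c) : ℕ) : ℝ) / p) := by
      calc (1 : ℝ) ≤ (1 - t) * (1 + 2 * t) := by nlinarith
        _ ≤ (1 - u) ^ k * (1 + ((2 * (k * c) : ℕ) : ℝ) / p) := by
          apply mul_le_mul (by rw [ht]; exact hber') h2 (by linarith)
          exact pow_nonneg (by linarith) k
    rw [mul_assoc]
    calc 1 - a = (1 - a) * 1 := (mul_one _).symm
      _ ≤ _ := mul_le_mul_of_nonneg_left h3 ha1
  · rw [if_neg h, mul_one, nuB_union Q c hQ H J p hd h, ← hk]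
    have e : 1 - ((nuB (QH Q H) p + k * nuB Q p : ℕ) : ℝ) / p = 1 - a - k * u := by
      rw [ha, hu]
      push_cast
      ring
    rw [e]
    calc 1 - a - k * u ≤ (1 - a) * (1 - k * u) := by nlinarith [mul_nonneg ha0 (mul_nonneg hk0 hu0)]
      _ ≤ _ := mul_le_mul_of_nonneg_left hber' ha1

open Classical in
/-- lower bound for one factor -/
lemma factor_lo' (Q : ℕ → ℕ → Prop) (c : ℕ) (hQ : PerB Q c) (H J : Finset ℕ) (p : ℕ) (hp : p.Prime)
    (hbig : 2 * ((H.card + J.card) * c) ≤ p) :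
      (1 - (nuB (QH Q H) p : ℝ) / p) * (1 - (nuB Q p : ℝ) / p) ^ J.card *
        (1 - (((H.card + J.card) * c : ℕ) : ℝ) ^ 2 * 2 / (p : ℝ) ^ 2) ≤
        1 - (nuB (QH Q (H ∪ J)) p : ℝ) / p := by
  have hp0 : (0 : ℝ) < p := by exact_mod_cast hp.pos
  have hfew := hQ.few p hp
  have hc : (nuB Q p : ℝ) ≤ c := by exact_mod_cast hfew
  obtain ⟨k, hk⟩ : ∃ k, k = J.card := ⟨_, rfl⟩
  obtain ⟨u, hu⟩ : ∃ u : ℝ, u = (nuB Q p : ℝ) / p := ⟨_, rfl⟩
  obtain ⟨a, ha⟩ : ∃ a : ℝ, a = (nuB (QH Q H) p : ℝ) / p := ⟨_, rfl⟩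
  obtain ⟨s, hs⟩ : ∃ s : ℝ, s = (((H.card + J.card) * c : ℕ) : ℝ) / p := ⟨_, rfl⟩
  have hk0 : (0 : ℝ) ≤ k := Nat.cast_nonneg k
  have hu0 : 0 ≤ u := by rw [hu]; positivity
  have ha0 : 0 ≤ a := by rw [ha]; positivity
  have ha1 : 0 ≤ 1 - a := by rw [ha]; exact one_sub_nonneg _ p hp
  have hu1 : u ≤ 1 := by
    rw [hu, div_le_one hp0]
    exact_mod_cast nuB_le Q p
  have hs0 : 0 ≤ s := by rw [hs]; positivity
  have hs1 : s ≤ 1 / 2 := by
    rw [hs, div_le_div_iff₀ hp0 (by norm_num)]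
    have : ((2 * ((H.card + J.card) * c) : ℕ) : ℝ) ≤ p := by exact_mod_cast hbig
    push_cast at this ⊢
    linarith
  have hH : (nuB (QH Q H) p : ℝ) ≤ (H.card : ℝ) * c := by
    have h1 := nuB_QH_le Q c hQ H p
    have h2 : (nuB (QH Q H) p : ℝ) ≤ (H.card : ℝ) * nuB Q p := by exact_mod_cast h1
    refine h2.trans ?_
    gcongr
  have hak : a + k * u ≤ s := by
    rw [ha, hu, hs, hk, ← mul_div_assoc, ← add_div]
    apply div_le_div_of_nonneg_right _ hp0.le
    push_cast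
    have : (J.card : ℝ) * nuB Q p ≤ J.card * c := by gcongr
    linarith
  have hq := pow_le_quad k u hu0 hu1
  have hP0 : 0 ≤ (1 - u) ^ k := pow_nonneg (by linarith) k
  have hle : (nuB (QH Q (H ∪ J)) p : ℝ) / p ≤ a + k * u := by
    rw [ha, hu, hk, ← mul_div_assoc, ← add_div]
    apply div_le_div_of_nonneg_right _ hp0.le
    exact_mod_cast nuB_union_le Q c hQ H J p
  have hes : (((H.card + J.card) * c : ℕ) : ℝ) ^ 2 * 2 / (p : ℝ) ^ 2 = 2 * s ^ 2 := by
    rw [hs]
    field_simp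
  rw [hes, ← hk, ← hu, ← ha]
  have ht0 : 0 ≤ k * u := by positivity
  have ht1 : k * u ≤ s := by linarith
  have h2s : 0 ≤ 1 - 2 * s ^ 2 := by nlinarith
  refine le_trans ?_ (by linarith : 1 - (a + k * u) ≤ _)
  calc (1 - a) * (1 - u) ^ k * (1 - 2 * s ^ 2) ≤
      (1 - a) * (1 - k * u + (k * u) ^ 2 / 2) * (1 - 2 * s ^ 2) := by
        apply mul_le_mul_of_nonneg_right _ h2s
        exact mul_le_mul_of_nonneg_left hq ha1
    _ ≤ 1 - (a + k * u) := by
        obtain ⟨t, ht⟩ : ∃ t : ℝ, t = k * u := ⟨_, rfl⟩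
        rw [← ht] at ht0 ht1 hak ⊢
        have e1 : (1 - a) * (1 - t + t ^ 2 / 2) ≤ 1 - (a + t) + s ^ 2 := by
          nlinarith [mul_nonneg ha0 ht0, mul_nonneg ha0 (sq_nonneg t), sq_nonneg (a - t)]
        have e2 : (1 : ℝ) / 2 ≤ 1 - (a + t) := by linarith
        calc (1 - a) * (1 - t + t ^ 2 / 2) * (1 - 2 * s ^ 2) ≤
            (1 - (a + t) + s ^ 2) * (1 - 2 * s ^ 2) := mul_le_mul_of_nonneg_right e1 h2s
          _ ≤ 1 - (a + t) := by nlinarith [sq_nonneg s, sq_nonneg (s ^ 2)]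

/-- the pairs of an element of `H` and an element of `J` -/
noncomputable def gp (g : ℕ → ℝ) (H J : Finset ℕ) : ℝ :=
  ∑ x ∈ prs J, g (x.2 - x.1) + ∑ x ∈ H ×ˢ J, g (ds x.1 x.2)

open Classical in
/-- upper bound for the tail -/
lemma tail_up' (Q : ℕ → ℕ → Prop) (c : ℕ) (hQ : PerB Q c) (H J : Finset ℕ) (w y : ℕ)
    (hd : Disjoint H J) (hbig : 2 * (J.card * c) ≤ w) :
    Vt (QH Q (H ∪ J)) w y ≤ Vt (QH Q H) w y * Vt Q w y ^ J.card *
      (1 + gp (fun t => Fp Q ((1 + 2 * (J.card * c)) ^ (J.card ^ 2 + H.card * J.card) - 1) w y t - 1) H J) := by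
  obtain ⟨K, hK⟩ : ∃ K, K = 2 * (J.card * c) := ⟨_, rfl⟩
  have h1 : Vt (QH Q (H ∪ J)) w y ≤ ∏ p ∈ (pz y).filter (fun p => w < p),
      ((1 - (nuB (QH Q H) p : ℝ) / p) * (1 - (nuB Q p : ℝ) / p) ^ J.card *
        (if Cl2 Q H J p then 1 + (K : ℝ) / p else 1)) := by
    unfold Vt
    apply Finset.prod_le_prod
    · intro p hp
      rw [mem_filter] at hp
      exact one_sub_nonneg _ p (mem_pz.1 hp.1).2
    · intro p hp
      rw [mem_filter] at hp
      have h2 := factor_up' Q c hQ H J p (mem_pz.1 hp.1).2 hd (by omega)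
      rw [hK]
      exact h2
  have hge : ∀ (p : ℕ) (P : Prop), (1 : ℝ) ≤ (if P then 1 + (K : ℝ) / p else 1) := by
    intro p P
    have : 0 ≤ (K : ℝ) / p := by positivity
    split_ifs <;> linarith
  have h2 : ∏ p ∈ (pz y).filter (fun p => w < p), (if Cl2 Q H J p then 1 + (K : ℝ) / p else 1) ≤
      (∏ x ∈ prs J, Fp Q K w y (x.2 - x.1)) * ∏ x ∈ H ×ˢ J, Fp Q K w y (ds x.1 x.2) := by
    have e : ∏ x ∈ prs J, Fp Q K w y (x.2 - x.1) = ∏ p ∈ (pz y).filter (fun p => w < p),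
        ∏ x ∈ prs J, (if CoG Q p (x.2 - x.1) then 1 + (K : ℝ) / p else 1) := by
      rw [Finset.prod_comm]
      apply Finset.prod_congr rfl
      intro x _
      unfold Fp
      rw [← Finset.filter_filter, Finset.prod_filter]
    have e' : ∏ x ∈ H ×ˢ J, Fp Q K w y (ds x.1 x.2) = ∏ p ∈ (pz y).filter (fun p => w < p),
        ∏ x ∈ H ×ˢ J, (if CoG Q p (ds x.1 x.2) then 1 + (K : ℝ) / p else 1) := by
      rw [Finset.prod_comm]
      apply Finset.prod_congr rfl
      intro x _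
      unfold Fp
      rw [← Finset.filter_filter, Finset.prod_filter]
    rw [e, e', ← Finset.prod_mul_distrib]
    apply Finset.prod_le_prod
    · intro p _
      exact zero_le_one.trans (hge p _)
    · intro p _
      have g1 : (1 : ℝ) ≤ ∏ x ∈ prs J, (if CoG Q p (x.2 - x.1) then 1 + (K : ℝ) / p else 1) :=
        Finset.one_le_prod (fun x _ => hge p _)
      have g2 : (1 : ℝ) ≤ ∏ x ∈ H ×ˢ J, (if CoG Q p (ds x.1 x.2) then 1 + (K : ℝ) / p else 1) :=
        Finset.one_le_prod (fun x _ => hge p _)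
      split_ifs with h
      · rcases h with ⟨a, ha, b, hb, hab, hco⟩ | ⟨a, ha, b, hb, hco⟩
        · have hmem : (a, b) ∈ prs J := by
            unfold prs
            rw [mem_filter, mem_product]
            exact ⟨⟨ha, hb⟩, hab⟩
          have h3 := single_le_prod_one (prs J)
            (fun x => if CoG Q p (x.2 - x.1) then 1 + (K : ℝ) / p else 1) (fun x _ => hge p _) (a, b) hmem
          simp only [if_pos hco] at h3
          calc 1 + (K : ℝ) / p ≤ _ := h3
            _ ≤ _ := le_mul_of_one_le_right (by linarith) g2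
        · have hmem : (a, b) ∈ H ×ˢ J := by
            rw [mem_product]
            exact ⟨ha, hb⟩
          have h3 := single_le_prod_one (H ×ˢ J)
            (fun x => if CoG Q p (ds x.1 x.2) then 1 + (K : ℝ) / p else 1) (fun x _ => hge p _) (a, b) hmem
          simp only [if_pos hco] at h3
          calc 1 + (K : ℝ) / p ≤ _ := h3
            _ ≤ _ := le_mul_of_one_le_left (by linarith) g1
      · calc (1 : ℝ) = 1 * 1 := (one_mul 1).symm
          _ ≤ _ := mul_le_mul g1 g2 (by norm_num) (by linarith)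
  -- a product over the disjoint sum
  have h3 : (∏ x ∈ prs J, Fp Q K w y (x.2 - x.1)) * (∏ x ∈ H ×ˢ J, Fp Q K w y (ds x.1 x.2)) - 1 ≤
      gp (fun t => Fp Q ((1 + K) ^ (J.card ^ 2 + H.card * J.card) - 1) w y t - 1) H J := by
    have e1 : (∏ x ∈ prs J, Fp Q K w y (x.2 - x.1)) * (∏ x ∈ H ×ˢ J, Fp Q K w y (ds x.1 x.2)) =
        ∏ x ∈ (prs J).disjSum (H ×ˢ J), Sum.elim (fun x : ℕ × ℕ => Fp Q K w y (x.2 - x.1))
          (fun x : ℕ × ℕ => Fp Q K w y (ds x.1 x.2)) x := by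
      rw [Finset.prod_disjSum]
      rfl
    have hcard : ((prs J).disjSum (H ×ˢ J)).card ≤ J.card ^ 2 + H.card * J.card := by
      rw [card_disjSum, card_product]
      exact Nat.add_le_add_right (prs_card J) _
    rw [e1]
    refine (prod_sub_one_le _ _ (fun x _ => by
      rcases x with x | x
      · exact Fp_ge Q K w y _
      · exact Fp_ge Q K w y _) _ hcard).trans ?_
    rw [Finset.sum_disjSum]
    unfold gp
    apply add_le_add
    · apply Finset.sum_le_sum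
      intro x _
      have := Fp_pow Q K (J.card ^ 2 + H.card * J.card) w y (x.2 - x.1)
      simp only [Sum.elim_inl]
      linarith
    · apply Finset.sum_le_sum
      intro x _
      have := Fp_pow Q K (J.card ^ 2 + H.card * J.card) w y (ds x.1 x.2)
      simp only [Sum.elim_inr]
      linarith
  rw [← hK]
  refine h1.trans ?_
  rw [Finset.prod_mul_distrib, Finset.prod_mul_distrib, Finset.prod_pow]
  apply mul_le_mul_of_nonneg_left _ (mul_nonneg (Vt_nonneg _ w y) (pow_nonneg (Vt_nonneg Q w y) _))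
  linarith

/-- lower bound for the tail -/
lemma tail_lo' (Q : ℕ → ℕ → Prop) (c : ℕ) (hQ : PerB Q c) (H J : Finset ℕ) (w y : ℕ) (hw : 1 ≤ w)
    (hbig : 2 * ((H.card + J.card) * c) ≤ w) :
    Vt (QH Q H) w y * Vt Q w y ^ J.card * (1 - (((H.card + J.card) * c : ℕ) : ℝ) ^ 2 * 2 / w) ≤
      Vt (QH Q (H ∪ J)) w y := by
  have h1 : ∏ p ∈ (pz y).filter (fun p => w < p),
      ((1 - (nuB (QH Q H) p : ℝ) / p) * (1 - (nuB Q p : ℝ) / p) ^ J.card *
        (1 - (((H.card + J.card) * c : ℕ) : ℝ) ^ 2 * 2 / (p : ℝ) ^ 2)) ≤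
      Vt (QH Q (H ∪ J)) w y := by
    unfold Vt
    apply Finset.prod_le_prod
    · intro p hp
      rw [mem_filter] at hp
      apply mul_nonneg (mul_nonneg (one_sub_nonneg _ p (mem_pz.1 hp.1).2)
        (pow_nonneg (one_sub_nonneg Q p (mem_pz.1 hp.1).2) _))
      have hp0 : (0 : ℝ) < p := by exact_mod_cast (mem_pz.1 hp.1).2.pos
      rw [sub_nonneg, div_le_one (by positivity)]
      have h3 : ((2 * ((H.card + J.card) * c) : ℕ) : ℝ) ≤ p := by
        exact_mod_cast (by omega : 2 * ((H.card + J.card) * c) ≤ p)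
      have h4 : (0 : ℝ) ≤ (((H.card + J.card) * c : ℕ) : ℝ) := Nat.cast_nonneg _
      rw [Nat.cast_mul 2] at h3
      push_cast at h3 h4 ⊢
      nlinarith
    · intro p hp
      rw [mem_filter] at hp
      exact factor_lo' Q c hQ H J p (mem_pz.1 hp.1).2 (by omega)
  refine le_trans ?_ h1
  rw [Finset.prod_mul_distrib, Finset.prod_mul_distrib, Finset.prod_pow]
  apply mul_le_mul_of_nonneg_left _ (mul_nonneg (Vt_nonneg _ w y) (pow_nonneg (Vt_nonneg Q w y) _))
  refine le_trans ?_ (prod_one_sub_ge _ _ (fun p _ => by positivity) ?_)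
  · have h2 := sum_inv_sq w y hw
    have h3 : ∑ p ∈ (pz y).filter (fun p => w < p), (((H.card + J.card) * c : ℕ) : ℝ) ^ 2 * 2 / (p : ℝ) ^ 2 ≤
        (((H.card + J.card) * c : ℕ) : ℝ) ^ 2 * 2 * (1 / w) := by
      calc ∑ p ∈ (pz y).filter (fun p => w < p), (((H.card + J.card) * c : ℕ) : ℝ) ^ 2 * 2 / (p : ℝ) ^ 2 ≤
          ∑ p ∈ (Icc 1 y).filter (fun n => w < n), (((H.card + J.card) * c : ℕ) : ℝ) ^ 2 * 2 / (p : ℝ) ^ 2 := by
            apply Finset.sum_le_sum_of_subset_of_nonneg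
            · intro p hp
              rw [mem_filter, mem_pz] at hp
              rw [mem_filter, mem_Icc]
              exact ⟨⟨hp.1.2.one_lt.le, hp.1.1⟩, hp.2⟩
            · intros; positivity
        _ = (((H.card + J.card) * c : ℕ) : ℝ) ^ 2 * 2 *
              ∑ p ∈ (Icc 1 y).filter (fun n => w < n), 1 / (p : ℝ) ^ 2 := by
            rw [Finset.mul_sum]
            apply Finset.sum_congr rfl
            intros
            ring
        _ ≤ _ := by gcongr
    have h4 : (((H.card + J.card) * c : ℕ) : ℝ) ^ 2 * 2 * (1 / w) =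
        (((H.card + J.card) * c : ℕ) : ℝ) ^ 2 * 2 / w := by ring
    linarith
  · intro p hp
    rw [mem_filter] at hp
    have hp0 : (0 : ℝ) < p := by exact_mod_cast (mem_pz.1 hp.1).2.pos
    rw [div_le_one (by positivity)]
    have h3 : ((2 * ((H.card + J.card) * c) : ℕ) : ℝ) ≤ p := by
      exact_mod_cast (by omega : 2 * ((H.card + J.card) * c) ≤ p)
    have h4 : (0 : ℝ) ≤ (((H.card + J.card) * c : ℕ) : ℝ) := Nat.cast_nonneg _
    rw [Nat.cast_mul 2] at h3
    push_cast at h3 h4 ⊢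
    nlinarith

end Pool.Agent.Q236.CP
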