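import Pool.Agent.Q236.CP.Sing

set_option autoImplicit false

/-!
# Patterns with a fixed part: the average of the singular series
-/

namespace Pool.Agent.Q236.CP

open Finset Filter Pool.Agent.H373R2.T7 Pool.Agent.W123.RP Pool.Agent.W123.RU Pool.Agent.TH464.PO

open Classical in
lemma Fp_mono (Q : ℕ → ℕ → Prop) (K K' w y t : ℕ) (h : K ≤ K') : Fp Q K w y t ≤ Fp Q K' w y t := by
  unfold Fp
  apply Finset.prod_le_prod
  · intro p _
    positivity
  · intro p _
    have : (K : ℝ) ≤ K' := by exact_mod_cast h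
    gcongr

lemma Vq_union_le (Q : ℕ → ℕ → Prop) (H J : Finset ℕ) (w : ℕ) :
    Vq (QH Q (H ∪ J)) w ≤ Vq (QH Q H) w := by
  unfold Vq
  apply Finset.prod_le_prod
  · intro p hp
    exact one_sub_nonneg _ p (mem_pz.1 hp).2
  · intro p hp
    have hp0 : (0 : ℝ) < p := by exact_mod_cast (mem_pz.1 hp).2.pos
    have h1 : (nuB (QH Q H) p : ℝ) / p ≤ (nuB (QH Q (H ∪ J)) p : ℝ) / p := by
      apply div_le_div_of_nonneg_right _ hp0.le
      exact_mod_cast nuB_union_ge Q H J p
    linarith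

open Classical in
/-- few sets contain a given element -/
lemma card_one (k T a : ℕ) :
    ((powersetCard (k + 1) (Icc 1 T)).filter (fun H => a ∈ H)).card ≤ T ^ k := by
  have h1 : ((powersetCard (k + 1) (Icc 1 T)).filter (fun H => a ∈ H)).card ≤
      (powersetCard k (Icc 1 T)).card := by
    apply Finset.card_le_card_of_injOn (fun H => H.erase a)
    · intro H hH
      rw [Finset.mem_coe, mem_filter, mem_powersetCard] at hH
      obtain ⟨⟨h1, h2⟩, h3⟩ := hH
      rw [Finset.mem_coe, mem_powersetCard]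
      refine ⟨(erase_subset _ _).trans h1, ?_⟩
      beta_reduce
      rw [card_erase_of_mem h3, h2]
      omega
    · intro H hH H' hH' h
      rw [Finset.mem_coe, mem_filter] at hH hH'
      simp only at h
      rw [← insert_erase hH.2, ← insert_erase hH'.2, h]
  refine h1.trans ?_
  rw [card_powersetCard, Nat.card_Icc, Nat.add_sub_cancel]
  exact Nat.choose_le_pow T k

open Classical in
/-- the sum over the distances from a given point -/
lemma sum_ds (T a : ℕ) (ha : a ≤ T) (B : Finset ℕ) (hB : B ⊆ Icc 1 T) (haB : a ∉ B) (g : ℕ → ℝ)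
    (hg : ∀ t, 0 ≤ g t) : ∑ b ∈ B, g (ds a b) ≤ 2 * ∑ t ∈ Icc 1 T, g t := by
  rw [← Finset.sum_filter_add_sum_filter_not B (fun b => a < b), two_mul]
  apply add_le_add
  · have h5 : ∑ b ∈ B.filter (fun b => a < b), g (ds a b) =
        ∑ t ∈ (B.filter (fun b => a < b)).image (fun b => b - a), g t := by
      rw [Finset.sum_image]
      · apply Finset.sum_congr rfl
        intro b hb
        rw [mem_filter] at hb
        unfold ds
        congr 1
        omega
      · intro b hb b' hb' h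
        rw [Finset.mem_coe, mem_filter] at hb hb'
        simp only at h
        omega
    rw [h5]
    apply Finset.sum_le_sum_of_subset_of_nonneg
    · intro t ht
      rw [mem_image] at ht
      obtain ⟨b, hb, rfl⟩ := ht
      rw [mem_filter] at hb
      have := mem_Icc.1 (hB hb.1)
      rw [mem_Icc]
      omega
    · intros
      exact hg _
  · have h5 : ∑ b ∈ B.filter (fun b => ¬ a < b), g (ds a b) =
        ∑ t ∈ (B.filter (fun b => ¬ a < b)).image (fun b => a - b), g t := by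
      rw [Finset.sum_image]
      · apply Finset.sum_congr rfl
        intro b hb
        rw [mem_filter] at hb
        unfold ds
        congr 1
        omega
      · intro b hb b' hb' h
        rw [Finset.mem_coe, mem_filter] at hb hb'
        simp only at h
        omega
    rw [h5]
    apply Finset.sum_le_sum_of_subset_of_nonneg
    · intro t ht
      rw [mem_image] at ht
      obtain ⟨b, hb, rfl⟩ := ht
      rw [mem_filter] at hb
      have h1 := mem_Icc.1 (hB hb.1)
      have h2 : b ≠ a := fun h => haB (h ▸ hb.1)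
      rw [mem_Icc]
      omega
    · intros
      exact hg _

open Classical in
/-- double counting -/
lemma sum_gp (k T : ℕ) (H B : Finset ℕ) (hH : ∀ a ∈ H, a ≤ T) (hB : B ⊆ Icc 1 T) (hd : Disjoint H B)
    (g : ℕ → ℝ) (hg : ∀ t, 0 ≤ g t) :
    ∑ J ∈ powersetCard (k + 1) B, gp g H J ≤ (1 + 2 * H.card) * ((T : ℝ) ^ k * ∑ t ∈ Icc 1 T, g t) := by
  unfold gp
  rw [Finset.sum_add_distrib, add_mul, one_mul]
  apply add_le_add
  · refine le_trans ?_ (sum_prs k T g hg)
    apply Finset.sum_le_sum_of_subset_of_nonneg (powersetCard_mono hB)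
    intro J _ _
    exact Finset.sum_nonneg fun x _ => hg _
  · have h1 : ∀ J ∈ powersetCard (k + 1) B, ∑ x ∈ H ×ˢ J, g (ds x.1 x.2) =
        ∑ b ∈ B, if b ∈ J then ∑ a ∈ H, g (ds a b) else 0 := by
      intro J hJ
      rw [mem_powersetCard] at hJ
      rw [Finset.sum_product_right, ← Finset.sum_filter]
      apply Finset.sum_congr _ (fun _ _ => rfl)
      ext b
      rw [mem_filter]
      exact ⟨fun h => ⟨hJ.1 h, h⟩, fun h => h.2⟩
    rw [Finset.sum_congr rfl h1, Finset.sum_comm]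
    have h2 : ∀ b ∈ B, ∑ J ∈ powersetCard (k + 1) B, (if b ∈ J then ∑ a ∈ H, g (ds a b) else 0) ≤
        (T : ℝ) ^ k * ∑ a ∈ H, g (ds a b) := by
      intro b _
      rw [← Finset.sum_filter, Finset.sum_const, nsmul_eq_mul]
      apply mul_le_mul_of_nonneg_right _ (Finset.sum_nonneg fun a _ => hg _)
      have h3 : ((powersetCard (k + 1) B).filter (fun J => b ∈ J)).card ≤ T ^ k := by
        refine le_trans (card_le_card ?_) (card_one k T b)
        exact Finset.filter_subset_filter _ (powersetCard_mono hB)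
      exact_mod_cast h3
    refine (Finset.sum_le_sum h2).trans ?_
    rw [← Finset.mul_sum, Finset.sum_comm]
    have h4 : ∑ a ∈ H, ∑ b ∈ B, g (ds a b) ≤ ∑ _a ∈ H, 2 * ∑ t ∈ Icc 1 T, g t := by
      apply Finset.sum_le_sum
      intro a ha
      exact sum_ds T a (hH a ha) B hB (Finset.disjoint_left.1 hd ha) g hg
    rw [Finset.sum_const, nsmul_eq_mul] at h4
    have h5 := mul_le_mul_of_nonneg_left h4 (by positivity : (0 : ℝ) ≤ (T : ℝ) ^ k)
    refine h5.trans (le_of_eq ?_)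
    ring

open Classical in
/-- **The average of the singular series** over the sets `H ∪ J`. -/
theorem sing_avg' (c k k0 : ℕ) (M1 : ℕ → ℝ) (hM1 : ∀ w, 0 ≤ M1 w) (κ η : ℝ) (hκ : 0 < κ) (hκ1 : κ ≤ 1)
    (hη : 0 < η) (hη1 : η ≤ 1) :
    ∃ (w : ℕ) (η' : ℝ) (T0 : ℕ), 0 < η' ∧ ∀ T : ℕ, T0 ≤ T → ∀ Q : ℕ → ℕ → Prop, PerB Q c →
      (∀ p : ℕ, p.Prime → nuB Q p < p) → ∀ y : ℕ, w ≤ y →
      (∀ t ∈ Icc 1 T, ((((pz y).filter (fun p : ℕ => T < p ∧ CoG Q p t)).card : ℕ) : ℝ) ≤ η' * T) →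
      ∀ (H B : Finset ℕ) (β : ℝ), H.card ≤ k0 → (∀ a ∈ H, a ≤ T) → B ⊆ Icc 1 T → Disjoint H B →
      κ * T ≤ β → RegB Q w B β (M1 w) →
      (1 - η) * (Vq (QH Q H) y * ((β * Vq Q y) ^ (k + 1) / (k + 1).factorial)) ≤
        ∑ J ∈ powersetCard (k + 1) B, Vq (QH Q (H ∪ J)) y ∧
      ∑ J ∈ powersetCard (k + 1) B, Vq (QH Q (H ∪ J)) y ≤
        (1 + η) * (Vq (QH Q H) y * ((β * Vq Q y) ^ (k + 1) / (k + 1).factorial)) := by
  obtain ⟨c1, B0, w1, hc1, hw12, hW⟩ := W_low c
  obtain ⟨K, hK⟩ : ∃ K : ℕ, K = (1 + 2 * ((k + 1) * c)) ^ ((k + 1) ^ 2 + k0 * (k + 1)) - 1 := ⟨_, rfl⟩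
  obtain ⟨A, hA⟩ : ∃ A : ℕ, A = 12 * (K * c ^ 2 + 1) * (k + 1).factorial * (1 + 2 * k0) +
    ((k0 + (k + 1)) * c) ^ 2 * 2 := ⟨_, rfl⟩
  have hκk : 0 < κ ^ (k + 1) := by positivity
  have hκk1 : κ ^ (k + 1) ≤ 1 := pow_le_one₀ hκ.le hκ1
  obtain ⟨w, hw0, hw2, hAw, hAw'⟩ := exists_w A B0 (k + 1) c1 (η / 4 * κ ^ (k + 1)) hc1 (by positivity)
    (max w1 (2 * ((k0 + (k + 1)) * c)))
  have hww1 : w1 ≤ w := (le_max_left _ _).trans hw0
  have hwc : 2 * ((k0 + (k + 1)) * c) ≤ w := (le_max_right _ _).trans hw0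
  have hwr : (0 : ℝ) < w := by exact_mod_cast (by omega : 0 < w)
  obtain ⟨η1, hη1def⟩ : ∃ η1 : ℝ, η1 = ((K * c ^ 2 + 1 : ℕ) : ℝ) / w := ⟨_, rfl⟩
  have hη10 : 0 < η1 := by rw [hη1def]; positivity
  have hfac : (1 : ℝ) ≤ (k + 1).factorial := by
    exact_mod_cast Nat.factorial_pos (k + 1)
  have hk00 : (0 : ℝ) ≤ k0 := Nat.cast_nonneg k0
  have hAge : 12 * η1 * (k + 1).factorial * (1 + 2 * k0) ≤ (A : ℝ) / w := by
    rw [hη1def, le_div_iff₀ hwr]
    have : ((12 * (K * c ^ 2 + 1) * (k + 1).factorial * (1 + 2 * k0) : ℕ) : ℝ) ≤ A := by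
      exact_mod_cast (by omega : 12 * (K * c ^ 2 + 1) * (k + 1).factorial * (1 + 2 * k0) ≤ A)
    refine le_trans (le_of_eq ?_) this
    push_cast
    field_simp
  have hη4 : η / 4 * κ ^ (k + 1) ≤ η / 4 := by nlinarith
  have hAge2 : (((k0 + (k + 1)) * c : ℕ) : ℝ) ^ 2 * 2 / w ≤ η / 4 := by
    refine le_trans ?_ (hAw'.trans hη4)
    apply div_le_div_of_nonneg_right _ hwr.le
    exact_mod_cast (by omega : ((k0 + (k + 1)) * c) ^ 2 * 2 ≤ A)
  have hη1le : η1 ≤ 1 := by
    have h1 : 12 * η1 * (k + 1).factorial * (1 + 2 * k0) ≤ η / 4 := hAge.trans (hAw'.trans hη4)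
    have h2 : (1 : ℝ) ≤ (k + 1).factorial * (1 + 2 * k0) := by nlinarith
    have h3 : 12 * η1 ≤ 12 * η1 * ((k + 1).factorial * (1 + 2 * k0)) := le_mul_of_one_le_right (by positivity) h2
    rw [← mul_assoc] at h3
    linarith
  obtain ⟨T1, hT1, havg⟩ := avg_sharp K (c ^ 2) w (by omega) η1 hη10 (by
    rw [hη1def]
    apply div_le_div_of_nonneg_right _ hwr.le
    push_cast
    linarith)
  obtain ⟨T2, hsmall⟩ := small_avg' (k + 1) w (M1 w) (η / 4) (hM1 w) (by positivity)
  refine ⟨w, η1 / (K + 1), max T1 ⌈T2 / κ⌉₊, by positivity, ?_⟩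
  intro T hT Q hQ hadm y hwy hlarge H B β hHk hHT hBT hd hβ hreg
  have hT1' : T1 ≤ T := (le_max_left _ _).trans hT
  have hT2' : T2 ≤ β := by
    refine le_trans ?_ hβ
    have h1 : T2 / κ ≤ T := (Nat.le_ceil _).trans (by exact_mod_cast (le_max_right _ _).trans hT)
    rw [div_le_iff₀ hκ] at h1
    linarith
  have hT0 : (0 : ℝ) ≤ T := Nat.cast_nonneg T
  have hβ0 : 0 ≤ β := le_trans (by positivity) hβ
  obtain ⟨s1, s2⟩ := hsmall β hT2' Q c H B hQ hadm hreg
  have hWpos := Vq_pos Q hadm w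
  obtain ⟨W, hWdef⟩ : ∃ W, W = Vq Q w := ⟨_, rfl⟩
  obtain ⟨V, hV⟩ : ∃ V, V = Vt Q w y := ⟨_, rfl⟩
  obtain ⟨W', hW'def⟩ : ∃ W', W' = Vq (QH Q H) w := ⟨_, rfl⟩
  obtain ⟨V', hV'⟩ : ∃ V', V' = Vt (QH Q H) w y := ⟨_, rfl⟩
  have hV0 : 0 ≤ V := by rw [hV]; exact Vt_nonneg Q w y
  have hV'0 : 0 ≤ V' := by rw [hV']; exact Vt_nonneg _ w y
  have hW'0 : 0 ≤ W' := by rw [hW'def]; exact Vq_nonneg _ w
  rw [← hWdef] at s1 s2 hWpos
  rw [← hW'def] at s1 s2
  rw [Vq_split Q w y hwy, Vq_split (QH Q H) w y hwy, ← hWdef, ← hV, ← hW'def, ← hV']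
  have e1 : W' * V' * ((β * (W * V)) ^ (k + 1) / (k + 1).factorial) =
      V' * V ^ (k + 1) * (W' * ((β * W) ^ (k + 1) / (k + 1).factorial)) := by
    rw [← mul_assoc, mul_pow (β * W) V]
    ring
  rw [e1]
  have hterm : ∀ J ∈ powersetCard (k + 1) B, Vq (QH Q (H ∪ J)) y =
      Vq (QH Q (H ∪ J)) w * Vt (QH Q (H ∪ J)) w y := fun J _ => Vq_split _ w y hwy
  have hX0 : 0 ≤ W' * ((β * W) ^ (k + 1) / ((k + 1).factorial : ℝ)) := by positivity
  have hVk : 0 ≤ V' * V ^ (k + 1) := by positivity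
  constructor
  · -- lower bound
    have h1 : ∀ J ∈ powersetCard (k + 1) B,
        V' * V ^ (k + 1) * (1 - η / 4) * Vq (QH Q (H ∪ J)) w ≤ Vq (QH Q (H ∪ J)) y := by
      intro J hJ
      rw [hterm J hJ]
      rw [mem_powersetCard] at hJ
      have hsz : (H.card + J.card) * c ≤ (k0 + (k + 1)) * c := by
        rw [hJ.2]
        exact Nat.mul_le_mul_right _ (by omega)
      have h2 := tail_lo' Q c hQ H J w y (by omega) (by omega)
      rw [← hV, ← hV'] at h2
      have h3 : V' * V ^ (k + 1) * (1 - η / 4) ≤ Vt (QH Q (H ∪ J)) w y := by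
        refine le_trans ?_ h2
        rw [hJ.2]
        apply mul_le_mul_of_nonneg_left _ hVk
        have h4 : (((H.card + (k + 1)) * c : ℕ) : ℝ) ^ 2 * 2 / w ≤ (((k0 + (k + 1)) * c : ℕ) : ℝ) ^ 2 * 2 / w := by
          apply div_le_div_of_nonneg_right _ hwr.le
          apply mul_le_mul_of_nonneg_right _ (by norm_num)
          apply pow_le_pow_left₀ (Nat.cast_nonneg _)
          rw [hJ.2] at hsz
          exact_mod_cast hsz
        linarith
      calc V' * V ^ (k + 1) * (1 - η / 4) * Vq (QH Q (H ∪ J)) w ≤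
            Vt (QH Q (H ∪ J)) w y * Vq (QH Q (H ∪ J)) w := mul_le_mul_of_nonneg_right h3 (Vq_nonneg _ w)
        _ = _ := mul_comm _ _
    have h2 := Finset.sum_le_sum h1
    rw [← Finset.mul_sum] at h2
    refine le_trans ?_ h2
    calc (1 - η) * (V' * V ^ (k + 1) * (W' * ((β * W) ^ (k + 1) / (k + 1).factorial))) ≤
        V' * V ^ (k + 1) * (1 - η / 4) * ((1 - η / 4) * (W' * ((β * W) ^ (k + 1) / (k + 1).factorial))) := by
          have h3 : 1 - η ≤ (1 - η / 4) * (1 - η / 4) := by nlinarith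
          have h4 := mul_le_mul_of_nonneg_right h3 (mul_nonneg hVk hX0)
          calc (1 - η) * (V' * V ^ (k + 1) * (W' * ((β * W) ^ (k + 1) / (k + 1).factorial))) ≤ _ := h4
            _ = _ := by ring
      _ ≤ _ := mul_le_mul_of_nonneg_left s1 (mul_nonneg hVk (by linarith))
  · -- upper bound
    have hg0 : ∀ t, 0 ≤ Fp Q K w y t - 1 := fun t => by
      have := Fp_ge Q K w y t
      linarith
    have h1 : ∀ J ∈ powersetCard (k + 1) B, Vq (QH Q (H ∪ J)) y ≤
        V' * V ^ (k + 1) * (Vq (QH Q (H ∪ J)) w + W' * gp (fun t => Fp Q K w y t - 1) H J) := by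
      intro J hJ
      have hdJ : Disjoint H J := Finset.disjoint_of_subset_right (mem_powersetCard.1 hJ).1 hd
      rw [hterm J hJ]
      rw [mem_powersetCard] at hJ
      have hsz : J.card * c ≤ (k0 + (k + 1)) * c := by
        rw [hJ.2]
        exact Nat.mul_le_mul_right _ (by omega)
      have h2 := tail_up' Q c hQ H J w y hdJ (by omega)
      rw [hJ.2, ← hV, ← hV'] at h2
      have hKK : (1 + 2 * ((k + 1) * c)) ^ ((k + 1) ^ 2 + H.card * (k + 1)) - 1 ≤ K := by
        rw [hK]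
        apply Nat.sub_le_sub_right
        apply Nat.pow_le_pow_right (by omega)
        exact Nat.add_le_add_left (Nat.mul_le_mul_right _ hHk) _
      have hgp : gp (fun t => Fp Q ((1 + 2 * ((k + 1) * c)) ^ ((k + 1) ^ 2 + H.card * (k + 1)) - 1) w y t - 1) H J ≤
          gp (fun t => Fp Q K w y t - 1) H J := by
        unfold gp
        apply add_le_add
        · apply Finset.sum_le_sum
          intro x _
          have := Fp_mono Q _ K w y (x.2 - x.1) hKK
          linarith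
        · apply Finset.sum_le_sum
          intro x _
          have := Fp_mono Q _ K w y (ds x.1 x.2) hKK
          linarith
      have h3 : 0 ≤ gp (fun t => Fp Q K w y t - 1) H J := by
        unfold gp
        exact add_nonneg (Finset.sum_nonneg fun x _ => hg0 _) (Finset.sum_nonneg fun x _ => hg0 _)
      have h4 := Vq_nonneg (QH Q (H ∪ J)) w
      have h5 := Vq_union_le Q H J w
      rw [← hW'def] at h5
      calc Vq (QH Q (H ∪ J)) w * Vt (QH Q (H ∪ J)) w y ≤ Vq (QH Q (H ∪ J)) w * (V' * V ^ (k + 1) *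
            (1 + gp (fun t => Fp Q K w y t - 1) H J)) := by
            apply mul_le_mul_of_nonneg_left _ h4
            refine h2.trans ?_
            apply mul_le_mul_of_nonneg_left _ hVk
            linarith
        _ = V' * V ^ (k + 1) * (Vq (QH Q (H ∪ J)) w +
            Vq (QH Q (H ∪ J)) w * gp (fun t => Fp Q K w y t - 1) H J) := by ring
        _ ≤ _ := by
          apply mul_le_mul_of_nonneg_left _ hVk
          have := mul_le_mul_of_nonneg_right h5 h3
          linarith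
    have h2 := Finset.sum_le_sum h1
    rw [← Finset.mul_sum, Finset.sum_add_distrib, ← Finset.mul_sum] at h2
    refine h2.trans ?_
    have h3 := sum_gp k T H B hHT hBT hd (fun t => Fp Q K w y t - 1) hg0
    have hKη : (K : ℝ) * (η1 / (K + 1)) ≤ η1 := by
      rw [← mul_div_assoc, div_le_iff₀ (by positivity)]
      have : η1 * ((K : ℝ) + 1) = K * η1 + η1 := by ring
      linarith
    have h4 := havg T hT1' (CoG Q) (coll_gen Q c hQ w) y (η1 / (K + 1)) (by positivity) hKη hlarge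
    have h5 : ∑ t ∈ Icc 1 T, (Fp Q K w y t - 1) ≤ 12 * η1 * T := by
      rw [Finset.sum_sub_distrib, Finset.sum_const, Nat.card_Icc, Nat.add_sub_cancel, nsmul_eq_mul,
        mul_one]
      have h6 := exp_bound η1 hη10.le hη1le
      have h7 := mul_le_mul_of_nonneg_right h6 hT0
      unfold Fp
      linarith
    have hH1 : (1 : ℝ) + 2 * H.card ≤ 1 + 2 * k0 := by
      have : (H.card : ℝ) ≤ k0 := by exact_mod_cast hHk
      linarith
    have hsum0 : 0 ≤ ∑ t ∈ Icc 1 T, (Fp Q K w y t - 1) := Finset.sum_nonneg fun t _ => hg0 t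
    have h6 : ∑ J ∈ powersetCard (k + 1) B, gp (fun t => Fp Q K w y t - 1) H J ≤
        η / 4 * ((β * W) ^ (k + 1) / (k + 1).factorial) := by
      calc _ ≤ (1 + 2 * (H.card : ℝ)) * ((T : ℝ) ^ k * ∑ t ∈ Icc 1 T, (Fp Q K w y t - 1)) := h3
        _ ≤ (1 + 2 * (k0 : ℝ)) * ((T : ℝ) ^ k * ∑ t ∈ Icc 1 T, (Fp Q K w y t - 1)) :=
          mul_le_mul_of_nonneg_right hH1 (by positivity)
        _ ≤ (1 + 2 * (k0 : ℝ)) * ((T : ℝ) ^ k * (12 * η1 * T)) := by gcongr
        _ = 12 * η1 * (k + 1).factorial * (1 + 2 * k0) * (T ^ (k + 1) / (k + 1).factorial) := by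
          rw [pow_succ]
          field_simp
        _ ≤ (η / 4 * κ ^ (k + 1) * (c1 / Real.log w ^ B0) ^ (k + 1)) * (T ^ (k + 1) / (k + 1).factorial) := by
          apply mul_le_mul_of_nonneg_right (hAge.trans hAw) (by positivity)
        _ ≤ (η / 4 * κ ^ (k + 1) * W ^ (k + 1)) * (T ^ (k + 1) / (k + 1).factorial) := by
          apply mul_le_mul_of_nonneg_right _ (by positivity)
          apply mul_le_mul_of_nonneg_left _ (by positivity)
          have hlog : 0 < Real.log w := Real.log_pos (by exact_mod_cast (by omega : 1 < w))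
          apply pow_le_pow_left₀ (by positivity)
          rw [hWdef]
          exact hW w hww1 Q hQ hadm
        _ = η / 4 * ((κ * T * W) ^ (k + 1) / (k + 1).factorial) := by
          rw [mul_pow, mul_pow]
          ring
        _ ≤ _ := by gcongr
    calc V' * V ^ (k + 1) * (∑ J ∈ powersetCard (k + 1) B, Vq (QH Q (H ∪ J)) w +
          W' * ∑ J ∈ powersetCard (k + 1) B, gp (fun t => Fp Q K w y t - 1) H J) ≤
        V' * V ^ (k + 1) * ((1 + η / 4) * (W' * ((β * W) ^ (k + 1) / (k + 1).factorial)) +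
          W' * (η / 4 * ((β * W) ^ (k + 1) / (k + 1).factorial))) := by
          apply mul_le_mul_of_nonneg_left _ hVk
          exact add_le_add s2 (mul_le_mul_of_nonneg_left h6 hW'0)
      _ = (1 + η / 2) * (V' * V ^ (k + 1) * (W' * ((β * W) ^ (k + 1) / (k + 1).factorial))) := by ring
      _ ≤ _ := by
        apply mul_le_mul_of_nonneg_right _ (mul_nonneg hVk hX0)
        linarith

end Pool.Agent.Q236.CP
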