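import Pool.Agent.TH464.PO.Sing2

set_option autoImplicit false

/-!
# Patterns with a fixed part: the small primes

The averages of `Pool.Agent.TH464.PO.Small` for the sets `H ∪ J`, where `H` is fixed and `J` runs through the
`k`-element subsets of a regular set `B`.
-/

namespace Pool.Agent.Q236.CP

open Finset Pool.Agent.H373R2.T7 Pool.Agent.W123.RP Pool.Agent.W123.RU Pool.Agent.TH464.PO

open Classical in
/-- `B` has about `β V` sifted elements in every translate. -/
def RegB (Q : ℕ → ℕ → Prop) (w : ℕ) (B : Finset ℕ) (β : ℝ) (M1 : ℝ) : Prop :=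
  ∀ m : ℕ, |(((B.filter (fun h => Sf Q w (m + h))).card : ℕ) : ℝ) - β * Vq Q w| ≤ M1

open Classical in
/-- the average over the sets of shifts, as an average over a period -/
lemma sum_sets' (Q : ℕ → ℕ → Prop) (c : ℕ) (hQ : PerB Q c) (w k : ℕ) (H B : Finset ℕ) :
    (Mw w : ℝ) * ∑ J ∈ powersetCard k B, Vq (QH Q (H ∪ J)) w =
      ∑ m ∈ (range (Mw w)).filter (fun m => Sf (QH Q H) w m),
        (((B.filter (fun h => Sf Q w (m + h))).card.choose k : ℕ) : ℝ) := by
  rw [Finset.mul_sum]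
  have h1 : ∀ J ∈ powersetCard k B, (Mw w : ℝ) * Vq (QH Q (H ∪ J)) w =
      ∑ m ∈ (range (Mw w)).filter (fun m => Sf (QH Q H) w m),
        if (∀ h ∈ J, Sf Q w (m + h)) then (1 : ℝ) else 0 := by
    intro J _
    rw [← exact (QH Q (H ∪ J)) _ (perB_QH Q c hQ (H ∪ J)) w]
    rw [Finset.sum_ite, Finset.sum_const_zero, add_zero, Finset.sum_const, nsmul_eq_mul, mul_one,
      Finset.filter_filter]
    congr 2
    apply Finset.filter_congr
    intro m _
    rw [sf_QH, sf_QH]
    constructor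
    · intro h
      exact ⟨fun a ha => h a (mem_union_left _ ha), fun a ha => h a (mem_union_right _ ha)⟩
    · rintro ⟨h1, h2⟩ a ha
      rcases mem_union.1 ha with h | h
      · exact h1 a h
      · exact h2 a h
  rw [Finset.sum_congr rfl h1, Finset.sum_comm]
  apply Finset.sum_congr rfl
  intro m _
  rw [Finset.sum_ite, Finset.sum_const_zero, add_zero, Finset.sum_const, nsmul_eq_mul, mul_one,
    ← Finset.card_powersetCard]
  congr 2
  ext J
  rw [mem_filter, mem_powersetCard, mem_powersetCard]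
  constructor
  · rintro ⟨⟨a1, a2⟩, a3⟩
    exact ⟨fun h hh => mem_filter.2 ⟨a1 hh, a3 h hh⟩, a2⟩
  · rintro ⟨a1, a2⟩
    exact ⟨⟨fun h hh => (mem_filter.1 (a1 hh)).1, a2⟩, fun h hh => (mem_filter.1 (a1 hh)).2⟩

open Classical in
/-- **The small primes**, for a fixed set `H` and the subsets of `B`. -/
theorem small_avg' (k w : ℕ) (M1 η : ℝ) (hM1 : 0 ≤ M1) (hη : 0 < η) : ∃ T0 : ℝ, ∀ β : ℝ, T0 ≤ β →
    ∀ (Q : ℕ → ℕ → Prop) (c : ℕ) (H B : Finset ℕ), PerB Q c → (∀ p : ℕ, p.Prime → nuB Q p < p) →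
    RegB Q w B β M1 →
    (1 - η) * (Vq (QH Q H) w * ((β * Vq Q w) ^ k / k.factorial)) ≤
      ∑ J ∈ powersetCard k B, Vq (QH Q (H ∪ J)) w ∧
    ∑ J ∈ powersetCard k B, Vq (QH Q (H ∪ J)) w ≤
      (1 + η) * (Vq (QH Q H) w * ((β * Vq Q w) ^ k / k.factorial)) := by
  obtain ⟨M, hM⟩ : ∃ M, M = Mw w := ⟨_, rfl⟩
  have hMpos : 0 < M := by rw [hM]; exact Mw_pos w
  have hMr : (0 : ℝ) < M := by exact_mod_cast hMpos
  obtain ⟨δ, hδ⟩ : ∃ δ : ℝ, δ = min 1 (η / (2 ^ k + k)) := ⟨_, rfl⟩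
  have hδ0 : 0 < δ := by rw [hδ]; positivity
  have hδ1 : δ ≤ 1 := by rw [hδ]; exact min_le_left _ _
  have hδη : δ * (2 ^ k + k) ≤ η := by
    have : δ ≤ η / (2 ^ k + k) := by rw [hδ]; exact min_le_right _ _
    rwa [le_div_iff₀ (by positivity)] at this
  refine ⟨(M : ℝ) * (M1 + 1 + k) / δ, ?_⟩
  intro β hβ Q c H B hQ hadm hB
  have hW := Vq_pos Q hadm w
  have hex := exact Q c hQ w
  rw [← hM] at hex
  have hMW : 1 ≤ (M : ℝ) * Vq Q w := by
    rw [← hex]
    have h1 : (0 : ℝ) < (((range M).filter (fun m => Sf Q w m)).card : ℝ) := by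
      rw [hex]
      positivity
    have h2 : 0 < ((range M).filter (fun m => Sf Q w m)).card := by exact_mod_cast h1
    exact_mod_cast h2
  obtain ⟨x, hx⟩ : ∃ x : ℝ, x = β * Vq Q w := ⟨_, rfl⟩
  have hk0 : (0 : ℝ) ≤ k := Nat.cast_nonneg k
  have hβ0 : 0 ≤ β := le_trans (by positivity) hβ
  have hxM : M1 + 1 + k ≤ δ * x := by
    rw [hx]
    rw [div_le_iff₀ hδ0] at hβ
    have h1 : (M : ℝ) * (M1 + 1 + k) ≤ M * (δ * (β * Vq Q w)) := by
      calc (M : ℝ) * (M1 + 1 + k) ≤ β * δ := hβ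
        _ = β * δ * 1 := (mul_one _).symm
        _ ≤ β * δ * (M * Vq Q w) := by gcongr
        _ = _ := by ring
    exact le_of_mul_le_mul_left h1 hMr
  have hMk : (0 : ℝ) < M1 + 1 + k := by positivity
  have hx0 : 0 < x := by
    by_contra hcon
    rw [not_lt] at hcon
    have : δ * x ≤ 0 := mul_nonpos_of_nonneg_of_nonpos hδ0.le hcon
    linarith
  have hxx : M1 + 1 + k ≤ x := by nlinarith
  have hkf : (0 : ℝ) < k.factorial := by exact_mod_cast Nat.factorial_pos k
  have hsum := sum_sets' Q c hQ w k H B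
  have hexH := exact (QH Q H) _ (perB_QH Q c hQ H) w
  rw [← hM] at hsum hexH
  obtain ⟨S, hS⟩ : ∃ S, S = (range M).filter (fun m => Sf (QH Q H) w m) := ⟨_, rfl⟩
  rw [← hS] at hsum hexH
  obtain ⟨U, hU⟩ : ∃ U, U = Vq (QH Q H) w := ⟨_, rfl⟩
  have hU0 : 0 ≤ U := by rw [hU]; exact Vq_nonneg _ w
  rw [← hU] at hexH ⊢
  rw [← hx]
  have hb : ∀ m ∈ S, (x - M1 - k) ^ k / k.factorial ≤
      (((B.filter (fun h => Sf Q w (m + h))).card.choose k : ℕ) : ℝ) ∧
      (((B.filter (fun h => Sf Q w (m + h))).card.choose k : ℕ) : ℝ) ≤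
        (x + M1) ^ k / k.factorial := by
    intro m _
    apply choose_bounds
    · have := hB m
      rw [← hx] at this
      exact this
    · linarith
  have hlo : (M : ℝ) * (U * ((x - M1 - k) ^ k / k.factorial)) ≤ M *
      ∑ J ∈ powersetCard k B, Vq (QH Q (H ∪ J)) w := by
    rw [hsum, ← mul_assoc, ← hexH]
    have := Finset.card_nsmul_le_sum S (fun m =>
      (((B.filter (fun h => Sf Q w (m + h))).card.choose k : ℕ) : ℝ)) _
      (fun m hm => (hb m hm).1)
    rwa [nsmul_eq_mul] at this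
  have hup : (M : ℝ) * ∑ J ∈ powersetCard k B, Vq (QH Q (H ∪ J)) w ≤
      M * (U * ((x + M1) ^ k / k.factorial)) := by
    rw [hsum, ← mul_assoc, ← hexH]
    have := Finset.sum_le_card_nsmul S (fun m =>
      (((B.filter (fun h => Sf Q w (m + h))).card.choose k : ℕ) : ℝ)) _
      (fun m hm => (hb m hm).2)
    rwa [nsmul_eq_mul] at this
  have hlo' := le_of_mul_le_mul_left hlo hMr
  have hup' := le_of_mul_le_mul_left hup hMr
  have hMδ : M1 / x ≤ δ := by
    rw [div_le_iff₀ hx0]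
    linarith
  have hMkδ : (M1 + k) / x ≤ δ := by
    rw [div_le_iff₀ hx0]
    linarith
  constructor
  · refine le_trans ?_ hlo'
    have h0 : (1 - η) * (x ^ k / k.factorial) ≤ (x - M1 - k) ^ k / k.factorial := by
      rw [← mul_div_assoc]
      apply div_le_div_of_nonneg_right _ hkf.le
      have h1 : x - M1 - k = x * (1 + -((M1 + k) / x)) := by
        field_simp
        ring
      rw [h1, mul_pow, mul_comm (1 - η)]
      apply mul_le_mul_of_nonneg_left _ (by positivity)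
      have h2 := one_add_mul_le_pow (a := -((M1 + k) / x)) (by linarith) k
      refine le_trans ?_ h2
      have h3 : (k : ℝ) * ((M1 + k) / x) ≤ k * δ := by gcongr
      have h4 : (0 : ℝ) < 2 ^ k := by positivity
      have h5 : k * δ ≤ δ * (2 ^ k + k) := by nlinarith
      linarith
    calc (1 - η) * (U * (x ^ k / k.factorial)) = U * ((1 - η) * (x ^ k / k.factorial)) := by ring
      _ ≤ _ := mul_le_mul_of_nonneg_left h0 hU0
  · refine le_trans hup' ?_
    have h0 : (x + M1) ^ k / k.factorial ≤ (1 + η) * (x ^ k / k.factorial) := by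
      rw [← mul_div_assoc]
      apply div_le_div_of_nonneg_right _ hkf.le
      have h1 : x + M1 = x * (1 + M1 / x) := by
        field_simp
      rw [h1, mul_pow, mul_comm (1 + η)]
      apply mul_le_mul_of_nonneg_left _ (by positivity)
      have h2 := one_add_pow_le k (M1 / x) (by positivity) (by linarith)
      refine h2.trans ?_
      have h6 : (1 : ℝ) ≤ 2 ^ k := one_le_pow₀ (by norm_num)
      have h3 : (2 ^ k - 1) * (M1 / x) ≤ (2 ^ k - 1) * δ :=
        mul_le_mul_of_nonneg_left hMδ (by linarith)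
      have h5 : (2 ^ k - 1) * δ ≤ δ * (2 ^ k + k) := by nlinarith
      linarith
    calc U * ((x + M1) ^ k / k.factorial) ≤ U * ((1 + η) * (x ^ k / k.factorial)) :=
          mul_le_mul_of_nonneg_left h0 hU0
      _ = _ := by ring

end Pool.Agent.Q236.CP
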