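import Pool.Agent.Q236.CP.Law

set_option autoImplicit false

/-!
# The conditional Poisson law in all intervals, for patterns of any diameter
-/

namespace Pool.Agent.Q236.CP

open Finset Filter Pool.Agent.H373R2.T7 Pool.Agent.W123.RP Pool.Agent.W123.RU Pool.Agent.TH464.PO

open Classical in
lemma reg_Icc (Q : ℕ → ℕ → Prop) (c : ℕ) (hQ : PerB Q c) (w k0 D : ℕ) (H : Finset ℕ) (hH : H.card ≤ k0) :
    RegB Q w (Icc 1 D \ H) D (Mw w + k0) := by
  intro m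
  have h1 := window Q c hQ w m D
  obtain ⟨P, hP⟩ : ∃ P : ℕ → Prop, P = fun h => Sf Q w (m + h) := ⟨_, rfl⟩
  have h2 : ((Icc 1 D \ H).filter P).card ≤ ((Icc 1 D).filter P).card := by
    apply card_le_card
    exact Finset.filter_subset_filter _ sdiff_subset
  have h3 : ((Icc 1 D).filter P).card ≤ ((Icc 1 D \ H).filter P).card + H.card := by
    refine le_trans (card_le_card ?_) (card_union_le _ _)
    intro b hb
    rw [mem_filter] at hb
    rw [Finset.mem_union, Finset.mem_filter, Finset.mem_sdiff]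
    by_cases hbH : b ∈ H
    · exact Or.inr hbH
    · exact Or.inl ⟨⟨hb.1, hbH⟩, hb.2⟩
  rw [hP] at h2 h3
  have h2' : ((((Icc 1 D \ H).filter (fun h => Sf Q w (m + h))).card : ℕ) : ℝ) ≤
      ((((Icc 1 D).filter (fun h => Sf Q w (m + h))).card : ℕ) : ℝ) := by exact_mod_cast h2
  have h3' : ((((Icc 1 D).filter (fun h => Sf Q w (m + h))).card : ℕ) : ℝ) ≤
      ((((Icc 1 D \ H).filter (fun h => Sf Q w (m + h))).card : ℕ) : ℝ) + H.card := by exact_mod_cast h3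
  have h4 : (H.card : ℝ) ≤ k0 := by exact_mod_cast hH
  have hk0 : (0 : ℝ) ≤ k0 := Nat.cast_nonneg k0
  rw [abs_le] at h1 ⊢
  constructor <;> linarith [h1.1, h1.2]

open Classical in
/-- the integers of `(Z, Z + Y]` for which all `n + h`, `h ∈ H`, are sifted -/
noncomputable def OmZ (Q : ℕ → ℕ → Prop) (y : ℕ) (H : Finset ℕ) (Z Y : ℕ) : Finset ℕ :=
  (Ioc Z (Z + Y)).filter (fun n => ∀ h ∈ H, Sf Q y (n + h))

open Classical in
lemma card_shift (Q : ℕ → ℕ → Prop) (y : ℕ) (H B : Finset ℕ) (Z Y : ℕ) (A : ℕ → Prop) :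
    ((OmZ Q y H Z Y).filter (fun n => A (NB Q y B n))).card =
      ((Om (Qt Q Z) y H Y).filter (fun n => A (NB (Qt Q Z) y B n))).card := by
  symm
  have hsf : ∀ n h : ℕ, Sf (Qt Q Z) y (n + h) ↔ Sf Q y (n + Z + h) := by
    intro n h
    rw [sf_Qt, show n + h + Z = n + Z + h by ring]
  have hNB : ∀ n, NB (Qt Q Z) y B n = NB Q y B (n + Z) := by
    intro n
    unfold NB
    congr 1
    apply Finset.filter_congr
    intro b _
    exact hsf n b
  apply Finset.card_bij (fun n _ => n + Z)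
  · intro n hn
    rw [mem_filter] at hn
    obtain ⟨h1, h2⟩ := hn
    unfold Om at h1
    rw [mem_filter, mem_Icc, sf_QH] at h1
    unfold OmZ
    rw [mem_filter, mem_filter, mem_Ioc]
    rw [hNB] at h2
    exact ⟨⟨by omega, fun h hh => (hsf n h).1 (h1.2 h hh)⟩, h2⟩
  · intro a _ b _ hab
    omega
  · intro n hn
    rw [mem_filter] at hn
    obtain ⟨h1, h2⟩ := hn
    unfold OmZ at h1
    rw [mem_filter, mem_Ioc] at h1
    have e : n - Z + Z = n := by omega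
    refine ⟨n - Z, ?_, e⟩
    unfold Om
    rw [mem_filter, mem_filter, mem_Icc, sf_QH, hNB, e]
    refine ⟨⟨by omega, fun h hh => ?_⟩, h2⟩
    rw [hsf, e]
    exact h1.2 h hh

lemma nuB_QH_Qt (Q : ℕ → ℕ → Prop) (c : ℕ) (hQ : PerB Q c) (H : Finset ℕ) (Z p : ℕ) :
    nuB (QH (Qt Q Z) H) p = nuB (QH Q H) p := by
  have h1 : QH (Qt Q Z) H = Qt (QH Q H) Z := by
    funext q m
    unfold QH Qt
    apply propext
    apply exists_congr
    intro h
    rw [show m + h + Z = m + Z + h by ring]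
  rw [h1]
  exact nuB_Qt (QH Q H) _ (perB_QH Q c hQ H) Z p

lemma Vq_QH_Qt (Q : ℕ → ℕ → Prop) (c : ℕ) (hQ : PerB Q c) (H : Finset ℕ) (Z y : ℕ) :
    Vq (QH (Qt Q Z) H) y = Vq (QH Q H) y := by
  unfold Vq
  apply Finset.prod_congr rfl
  intro p _
  rw [nuB_QH_Qt Q c hQ]

lemma NB_mono (Q : ℕ → ℕ → Prop) (y : ℕ) (B B' : Finset ℕ) (h : B ⊆ B') (n : ℕ) :
    NB Q y B n ≤ NB Q y B' n := by
  classical
  unfold NB
  apply card_le_card
  exact Finset.filter_subset_filter _ h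

open Classical in
/-- **The conditional Poisson law** in all intervals and for patterns of any diameter. -/
theorem cp_law (c k0 : ℕ) (hc : 1 ≤ c) (x0 ε : ℝ) (hx0 : 0 ≤ x0) (hε : 0 < ε) :
    ∃ (K0 y0 T0 R0 : ℕ) (η' κ : ℝ), 0 < η' ∧ 0 < κ ∧ κ ≤ 1 / 2 ∧
      ∀ (Q : ℕ → ℕ → Prop) (Z Y y : ℕ), PerB Q c → (∀ p : ℕ, p.Prime → nuB Q p < p) → y0 ≤ y →
      y ^ K0 ≤ Y → Vq Q y ≤ κ →
      (∀ T : ℕ, κ ≤ T * Vq Q y → T * Vq Q y ≤ max x0 1 → T0 ≤ T ∧ T ^ R0 ≤ Y ∧ ∀ t ∈ Icc 1 T,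
        ((((pz y).filter (fun p : ℕ => T < p ∧ CoG Q p t)).card : ℕ) : ℝ) ≤ η' * T) →
      ∀ (H : Finset ℕ) (D : ℕ), H.card ≤ k0 → (∀ a ∈ H, a ≤ D) → (∀ p : ℕ, p.Prime → nuB (QH Q H) p < p) →
      D * Vq Q y ≤ x0 →
      |((OmZ Q y H Z Y).card : ℝ) - Y * Vq (QH Q H) y| ≤ ε * (Y * Vq (QH Q H) y) ∧
      ∀ A : Finset ℕ,
        |(((OmZ Q y H Z Y).filter (fun n => NB Q y (Icc 1 D \ H) n ∈ A)).card : ℝ) -
          Y * Vq (QH Q H) y * ∑ j ∈ A, Real.exp (-(D * Vq Q y)) * (D * Vq Q y) ^ j / j.factorial| ≤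
          ε * (Y * Vq (QH Q H) y) := by
  obtain ⟨ε1, hε1⟩ : ∃ ε1 : ℝ, ε1 = min 1 (ε / 8) := ⟨_, rfl⟩
  have hε10 : 0 < ε1 := by rw [hε1]; positivity
  have hε11 : ε1 ≤ 1 := by rw [hε1]; exact min_le_left _ _
  have hε18 : ε1 ≤ ε / 8 := by rw [hε1]; exact min_le_right _ _
  obtain ⟨κ, hκ⟩ : ∃ κ, κ = min (ε / 16) (1 / 2) := ⟨_, rfl⟩
  have hκ0 : 0 < κ := by rw [hκ]; positivity
  have hκ1 : κ ≤ ε / 16 := by rw [hκ]; exact min_le_left _ _
  have hκ2 : κ ≤ 1 / 2 := by rw [hκ]; exact min_le_right _ _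
  obtain ⟨K0, y0, T0, R0, η', hη', hlaw⟩ := law' c k0 hc (fun w => Mw w + k0) (fun w => by positivity)
    1 (max x0 1) ε1 one_pos le_rfl (by positivity) hε10
  refine ⟨K0, y0, T0, R0, η', κ, hη', hκ0, hκ2, ?_⟩
  intro Q Z Y y hQ hadm hy hyY hVκ hT H D hHk hHD hadmH hDx
  have hV0 : 0 < Vq Q y := Vq_pos Q hadm y
  have hVH0 : 0 < Vq (QH Q H) y := Vq_pos _ hadmH y
  have hY0 : (0 : ℝ) ≤ Y := Nat.cast_nonneg Y
  have hQt := perB_Qt Q c hQ Z
  have hadmt : ∀ p : ℕ, p.Prime → nuB (Qt Q Z) p < p := fun p hp => by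
    rw [nuB_Qt Q c hQ]
    exact hadm p hp
  have hadmHt : ∀ p : ℕ, p.Prime → nuB (QH (Qt Q Z) H) p < p := fun p hp => by
    rw [nuB_QH_Qt Q c hQ]
    exact hadmH p hp
  -- the law for a window `T ≥ D` of mean at least `κ`
  have hmain : ∀ T : ℕ, D ≤ T → κ ≤ T * Vq Q y → T * Vq Q y ≤ max x0 1 →
      |((Om (Qt Q Z) y H Y).card : ℝ) - Y * Vq (QH Q H) y| ≤ ε1 * (Y * Vq (QH Q H) y) ∧
      ∀ A : Finset ℕ, |(((Om (Qt Q Z) y H Y).filter (fun n => NB (Qt Q Z) y (Icc 1 T \ H) n ∈ A)).card : ℝ) -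
        (Om (Qt Q Z) y H Y).card * ∑ j ∈ A, Real.exp (-(T * Vq Q y)) * (T * Vq Q y) ^ j / j.factorial| ≤
          ε1 * (Om (Qt Q Z) y H Y).card := by
    intro T hDT h1 h2
    obtain ⟨hT0, hTR, hlarge⟩ := hT T h1 h2
    have h3 := hlaw Y y T hy hyY hT0 hTR (Qt Q Z) hQt hadmt (fun t ht => by
        refine le_trans ?_ (hlarge t ht)
        have : ((pz y).filter (fun p : ℕ => T < p ∧ CoG (Qt Q Z) p t)).card ≤
            ((pz y).filter (fun p : ℕ => T < p ∧ CoG Q p t)).card := by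
          apply card_le_card
          intro p hp
          rw [mem_filter] at hp ⊢
          obtain ⟨h1, h2, m, h3, h4⟩ := hp
          refine ⟨h1, h2, m + Z, h3, ?_⟩
          unfold Qt at h4
          rwa [show m + t + Z = m + Z + t by ring] at h4
        exact_mod_cast this) H (Icc 1 T \ H) T
        ⟨hHk, fun a ha => (hHD a ha).trans hDT, sdiff_subset, disjoint_sdiff, by rw [one_mul],
          fun w => reg_Icc (Qt Q Z) c hQt w k0 T H hHk⟩ hadmHt (by rw [Vq_Qt Q c hQ]; exact h2)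
    rw [Vq_QH_Qt Q c hQ, Vq_Qt Q c hQ] at h3
    exact h3
  obtain ⟨e, he⟩ : ∃ e : ℝ, e = Y * Vq (QH Q H) y := ⟨_, rfl⟩
  have he0 : 0 ≤ e := by rw [he]; positivity
  have hOmZ : (OmZ Q y H Z Y).card = (Om (Qt Q Z) y H Y).card := by
    have := card_shift Q y H ∅ Z Y (fun _ => True)
    simpa using this
  have hDV : 0 ≤ D * Vq Q y := by positivity
  have hfin : |((Om (Qt Q Z) y H Y).card : ℝ) - e| ≤ ε1 * e ∧
      ∀ A : Finset ℕ, |(((Om (Qt Q Z) y H Y).filter (fun n => NB (Qt Q Z) y (Icc 1 D \ H) n ∈ A)).card : ℝ) -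
        (Om (Qt Q Z) y H Y).card * ∑ j ∈ A, Real.exp (-(D * Vq Q y)) * (D * Vq Q y) ^ j / j.factorial| ≤
          (ε / 8 + ε1) * (Om (Qt Q Z) y H Y).card := by
    by_cases hκT : κ ≤ D * Vq Q y
    · obtain ⟨h1, h2⟩ := hmain D le_rfl hκT (hDx.trans (le_max_left _ _))
      rw [← he] at h1
      refine ⟨h1, fun A => (h2 A).trans ?_⟩
      apply mul_le_mul_of_nonneg_right _ (Nat.cast_nonneg _)
      linarith
    · rw [not_le] at hκT
      obtain ⟨T', h1, h2, h3⟩ := exists_window (Vq Q y) κ hV0 hVκ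
      have hDT := h3 D hκT
      obtain ⟨h4, h5⟩ := hmain T' hDT h1 (h2.trans ((by linarith : 2 * κ ≤ 1).trans (le_max_right _ _)))
      rw [← he] at h4
      refine ⟨h4, fun A => ?_⟩
      have hDT' : D * Vq Q y ≤ T' * Vq Q y := by
        have : (D : ℝ) ≤ T' := by exact_mod_cast hDT
        gcongr
      have h6 := extend (Om (Qt Q Z) y H Y) (NB (Qt Q Z) y (Icc 1 D \ H)) (NB (Qt Q Z) y (Icc 1 T' \ H))
        (fun n => NB_mono (Qt Q Z) y _ _ (sdiff_subset_sdiff (Icc_subset_Icc_right hDT) subset_rfl) n)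
        (D * Vq Q y) (T' * Vq Q y) ε1 hDV hDT' (h5 {0}) A
      refine h6.trans ?_
      apply mul_le_mul_of_nonneg_right _ (Nat.cast_nonneg _)
      linarith
  obtain ⟨h1, h2⟩ := hfin
  rw [hOmZ, ← he]
  have h3 : ((Om (Qt Q Z) y H Y).card : ℝ) ≤ 2 * e := by
    have := (abs_le.1 h1).2
    nlinarith
  refine ⟨h1.trans (mul_le_mul_of_nonneg_right (by linarith) he0), fun A => ?_⟩
  have hcs : ((OmZ Q y H Z Y).filter (fun n => NB Q y (Icc 1 D \ H) n ∈ A)).card =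
      ((Om (Qt Q Z) y H Y).filter (fun n => NB (Qt Q Z) y (Icc 1 D \ H) n ∈ A)).card := by
    have := card_shift Q y H (Icc 1 D \ H) Z Y (fun j => j ∈ A)
    convert this
  rw [hcs]
  have h4 := h2 A
  obtain ⟨P, hP⟩ : ∃ P : ℝ, P = ∑ j ∈ A, Real.exp (-(D * Vq Q y)) * (D * Vq Q y) ^ j / j.factorial := ⟨_, rfl⟩
  rw [← hP] at h4 ⊢
  have hP0 : 0 ≤ P := by rw [hP]; exact Finset.sum_nonneg fun j _ => by positivity
  have hP1 : P ≤ 1 := by
    rw [hP]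
    have := poisson_tail (D * Vq Q y) hDV 0 A (fun j _ => Nat.zero_le j)
    simpa using this
  have h5 : |((Om (Qt Q Z) y H Y).card : ℝ) * P - e * P| ≤ ε1 * e := by
    rw [← sub_mul, abs_mul, abs_of_nonneg hP0]
    calc |((Om (Qt Q Z) y H Y).card : ℝ) - e| * P ≤ ε1 * e * 1 := by
          apply mul_le_mul h1 hP1 hP0 (by positivity)
      _ = _ := by ring
  have h6 := abs_sub_le (((Om (Qt Q Z) y H Y).filter (fun n => NB (Qt Q Z) y (Icc 1 D \ H) n ∈ A)).card : ℝ)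
    (((Om (Qt Q Z) y H Y).card : ℝ) * P) (e * P)
  have h7 : (ε / 8 + ε1) * ((Om (Qt Q Z) y H Y).card : ℝ) ≤ (ε / 4) * (2 * e) := by
    apply mul_le_mul _ h3 (Nat.cast_nonneg _) (by positivity)
    linarith
  have h8 : ε1 * e ≤ ε / 8 * e := mul_le_mul_of_nonneg_right hε18 he0
  have h9 : 0 ≤ ε * e := by positivity
  linarith

end Pool.Agent.Q236.CP
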